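import Pool.Agent.Lib.MP_a7e07e_co.K2.Lap

set_option autoImplicit false

/-!
Basic facts: the potential `φ = P (e_i - e_h)`, the minimum principle, and the blocks of size two.
-/

namespace Pool.Agent.K2

open Matrix Pool.Agent.BDesign

variable {T B : Type} [Fintype T] [DecidableEq T] [Fintype B] [DecidableEq B]
variable {N : T → B → ℕ} {r : ℕ} {P : Matrix T T ℝ}

theorem ev_eq (i h : T) : ev i h = Pi.single i 1 - Pi.single h 1 := by
  funext t
  simp only [ev, Pi.sub_apply, Pi.single_apply]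

theorem ev_dot (i h : T) (u : T → ℝ) : ev i h ⬝ᵥ u = u i - u h := by
  simp only [dotProduct, ev, sub_mul, ite_mul, one_mul, zero_mul, Finset.sum_sub_distrib,
    Finset.sum_ite_eq', Finset.mem_univ, if_true]

theorem ev_self (i : T) : ev i i = 0 := by
  funext t; simp [ev]

theorem ev_add (u h l : T) : ev u h + ev h l = ev u l := by
  simp only [ev_eq]; abel

theorem qf_add_right (Q : Matrix T T ℝ) (x y z : T → ℝ) : qf Q x (y + z) = qf Q x y + qf Q x z := by
  unfold qf
  rw [Matrix.mulVec_add, dotProduct_add]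

theorem qf_add_left (Q : Matrix T T ℝ) (x y z : T → ℝ) : qf Q (x + y) z = qf Q x z + qf Q y z := by
  unfold qf
  rw [add_dotProduct]

theorem qf_add_sq (Q : Matrix T T ℝ) (hs : ∀ t s, Q t s = Q s t) (x y : T → ℝ) :
    qf Q (x + y) (x + y) = qf Q x x + 2 * qf Q x y + qf Q y y := by
  rw [qf_add_left, qf_add_right, qf_add_right, qf_comm Q hs y x]
  ring

theorem sq_symm (hP : IsP N r P) (t s : T) : (P * P) t s = (P * P) s t := by
  rw [Matrix.mul_apply, Matrix.mul_apply]
  refine Finset.sum_congr rfl fun u _ => ?_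
  rw [hP.symm t u, hP.symm u s, mul_comm]

theorem P_tr (hP : IsP N r P) : Pᵀ = P := by
  ext t s
  rw [Matrix.transpose_apply, hP.symm]

theorem qf_sq (hP : IsP N r P) (x y : T → ℝ) : qf (P * P) x y = (P *ᵥ x) ⬝ᵥ (P *ᵥ y) := by
  unfold qf
  rw [← Matrix.mulVec_mulVec, Matrix.dotProduct_mulVec x P]
  have : x ᵥ* P = P *ᵥ x := by
    rw [← Matrix.mulVec_transpose, P_tr hP]
  rw [this]

theorem sq_psd (hP : IsP N r P) (x : T → ℝ) : 0 ≤ qf (P * P) x x := by
  rw [qf_sq hP]
  exact Finset.sum_nonneg fun t _ => mul_self_nonneg _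

theorem qf_ev_right (hP : IsP N r P) (x : T → ℝ) (h l : T) :
    qf P x (ev h l) = (P *ᵥ x) h - (P *ᵥ x) l := by
  rw [qf_comm P hP.symm]
  unfold qf
  rw [ev_dot]

theorem qf2_ev_right (hP : IsP N r P) (x : T → ℝ) (h l : T) :
    qf (P * P) x (ev h l) = (P *ᵥ (P *ᵥ x)) h - (P *ᵥ (P *ᵥ x)) l := by
  rw [qf_comm (P * P) (sq_symm hP)]
  unfold qf
  rw [ev_dot, ← Matrix.mulVec_mulVec]

theorem sum_P (hP : IsP N r P) (x : T → ℝ) : ∑ t, (P *ᵥ x) t = 0 := by
  simp only [Matrix.mulVec, dotProduct]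
  rw [Finset.sum_comm]
  refine Finset.sum_eq_zero fun s _ => ?_
  rw [← Finset.sum_mul]
  have : ∑ t, P t s = 0 := by
    rw [← hP.row s]
    exact Finset.sum_congr rfl fun t _ => hP.symm t s
  rw [this, zero_mul]

theorem L_P (hP : IsP N r P) (x : T → ℝ) (hx : ∑ t, x t = 0) : Lp N r *ᵥ (P *ᵥ x) = x := by
  rw [Matrix.mulVec_mulVec, hP.left, pi_mulVec x hx]

/-- `φ = P (e_i - e_h)` is nonzero -/
theorem F_pos (hP : IsP N r P) (i h : T) (hih : i ≠ h) : 0 < qf (P * P) (ev i h) (ev i h) := by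
  rcases (sq_psd hP (ev i h)).eq_or_lt with h0 | h0
  · exfalso
    rw [qf_sq hP] at h0
    have h1 : P *ᵥ ev i h = 0 := dotProduct_self_eq_zero.1 h0.symm
    have h2 := L_P hP (ev i h) (ev_sum i h)
    rw [h1, Matrix.mulVec_zero] at h2
    have h3 := congrFun h2 i
    simp [ev, hih] at h3
  · exact h0

/-- the minimum principle -/
theorem min_principle (hP : IsP N r P) (i h t : T) :
    (P *ᵥ ev i h) h ≤ (P *ᵥ ev i h) t := by
  set φ : T → ℝ := P *ᵥ ev i h with hφ
  have hA : 0 ≤ φ i - φ h := by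
    have := hP.psd (ev i h)
    unfold qf at this
    rw [ev_dot] at this
    exact this
  set d : T → ℝ := fun t => max (φ t) (φ h) - φ t with hd
  have hLφ : Lp N r *ᵥ φ = ev i h := L_P hP (ev i h) (ev_sum i h)
  have e1 : qf (Lp N r) (d + φ) (d + φ) = qf (Lp N r) d d + 2 * qf (Lp N r) d φ + qf (Lp N r) φ φ :=
    qf_add_sq _ (lap_symm N) d φ
  have e2 : qf (Lp N r) d φ = 0 := by
    unfold qf
    rw [hLφ, dotProduct_comm, ev_dot]
    simp only [hd, max_self, sub_self, sub_zero]
    rw [max_eq_left (by linarith)]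
    ring
  have e3 : qf (Lp N r) (d + φ) (d + φ) ≤ qf (Lp N r) φ φ := by
    have f1 := lap_form N hP.des (d + φ) (d + φ)
    have f2 := lap_form N hP.des φ φ
    have f3 : ∑ t, ∑ s, lam N t s * (((d + φ) t - (d + φ) s) * ((d + φ) t - (d + φ) s)) ≤
        ∑ t, ∑ s, lam N t s * ((φ t - φ s) * (φ t - φ s)) := by
      refine Finset.sum_le_sum fun t _ => Finset.sum_le_sum fun s _ =>
        mul_le_mul_of_nonneg_left ?_ (lam_nonneg N t s)
      simp only [hd, Pi.add_apply, sub_add_cancel]
      have g1 := abs_max_sub_max_le_abs (φ t) (φ s) (φ h)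
      have g2 := pow_le_pow_left₀ (abs_nonneg _) g1 2
      rw [sq_abs, sq_abs] at g2
      linarith
    linarith
  have e4 : qf (Lp N r) d d = 0 := le_antisymm (by linarith) (lap_psd N hP.des d)
  have e5 := lap_zero hP d e4 t h
  simp only [hd, max_self, sub_self] at e5
  have := le_max_right (φ t) (φ h)
  linarith

/-- dual form -/
theorem max_principle (hP : IsP N r P) (i h t : T) :
    (P *ᵥ ev i h) t ≤ (P *ᵥ ev i h) i := by
  have h1 := min_principle hP h i t
  have h2 : ev h i = - ev i h := by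
    simp only [ev_eq]; abel
  rw [h2, Matrix.mulVec_neg] at h1
  simpa using h1

/-- the block of a double entry -/
theorem col_two (hN : IsDesign N r 2) (u : T) (j : B) (hu : 2 ≤ N u j) :
    BDesign.col N j = Pi.single u 1 + Pi.single u 1 ∧ ∀ t, t ≠ u → N t j = 0 := by
  have h1 := hN.2 j
  have h2 : N u j + ∑ t ∈ Finset.univ.erase u, N t j = 2 := by
    rw [← h1]
    exact Finset.add_sum_erase Finset.univ (fun t => N t j) (Finset.mem_univ u)
  have h3 : ∑ t ∈ Finset.univ.erase u, N t j = 0 := by omega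
  have h4 : ∀ t, t ≠ u → N t j = 0 := fun t ht =>
    Finset.sum_eq_zero_iff.1 h3 t (Finset.mem_erase.2 ⟨ht, Finset.mem_univ t⟩)
  refine ⟨?_, h4⟩
  funext t
  by_cases ht : t = u
  · subst ht
    have : N t j = 2 := by omega
    simp only [BDesign.col, this, Pi.add_apply, Pi.single_eq_same]
    norm_num
  · simp only [BDesign.col, h4 t ht, Pi.add_apply, Pi.single_eq_of_ne ht]
    norm_num

/-- a block with two different plots -/
theorem col_pair (hN : IsDesign N r 2) (h l : T) (hhl : h ≠ l) (j : B) (h1 : 1 ≤ N h j) (h2 : 1 ≤ N l j) :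
    BDesign.col N j = Pi.single h 1 + Pi.single l 1 := by
  have e1 := hN.2 j
  have e2 : N h j + (N l j + ∑ t ∈ (Finset.univ.erase h).erase l, N t j) = 2 := by
    have a1 : N l j + ∑ t ∈ (Finset.univ.erase h).erase l, N t j = ∑ t ∈ Finset.univ.erase h, N t j :=
      Finset.add_sum_erase (Finset.univ.erase h) (fun t => N t j)
        (Finset.mem_erase.2 ⟨hhl.symm, Finset.mem_univ l⟩)
    have a2 : N h j + ∑ t ∈ Finset.univ.erase h, N t j = ∑ t, N t j :=
      Finset.add_sum_erase Finset.univ (fun t => N t j) (Finset.mem_univ h)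
    rw [a1, a2, e1]
  have e3 : ∑ t ∈ (Finset.univ.erase h).erase l, N t j = 0 := by omega
  have e4 : ∀ t, t ≠ h → t ≠ l → N t j = 0 := fun t ht htl =>
    Finset.sum_eq_zero_iff.1 e3 t (Finset.mem_erase.2 ⟨htl, Finset.mem_erase.2 ⟨ht, Finset.mem_univ t⟩⟩)
  funext t
  by_cases ht : t = h
  · subst ht
    have : N t j = 1 := by omega
    simp only [BDesign.col, this, Pi.add_apply, Pi.single_eq_same, Pi.single_eq_of_ne hhl]
    norm_num
  · by_cases htl : t = l
    · subst htl
      have : N t j = 1 := by omega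
      simp only [BDesign.col, this, Pi.add_apply, Pi.single_eq_same, Pi.single_eq_of_ne ht]
      norm_num
    · simp only [BDesign.col, e4 t ht htl, Pi.add_apply, Pi.single_eq_of_ne ht, Pi.single_eq_of_ne htl]
      norm_num

theorem exists_block (N : T → B → ℕ) (h l : T) (hpos : lam N h l ≠ 0) :
    ∃ j, 1 ≤ N h j ∧ 1 ≤ N l j := by
  by_contra hcon
  push Not at hcon
  apply hpos
  unfold lam
  refine Finset.sum_eq_zero fun j _ => ?_
  by_cases h1 : 1 ≤ N h j
  · have h2 := hcon j h1
    have : N l j = 0 := by omega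
    rw [this]; simp
  · have : N h j = 0 := by omega
    rw [this]; simp

/-- only one variety can have a double entry -/
theorem one_loop (hP : IsP N r P) (u h : T) (huh : u ≠ h) (j0 j1 : B) (h0 : 2 ≤ N u j0) (h1 : 2 ≤ N h j1) :
    False := by
  have c0 := col_two hP.des u j0 h0
  have c1 := col_two hP.des h j1 h1
  have hj : j0 ≠ j1 := by
    intro hj
    subst hj
    have := c0.2 h huh.symm
    omega
  have hz : ev u h = BDesign.col N j0 - BDesign.col N j1 - ev u h := by
    rw [c0.1, c1.1, ev_eq]; abel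
  have := hP.swap u h j0 j1 huh hj (by omega) (by omega) (ev u h) hz
  have hF := F_pos hP u h huh
  nlinarith

/-- the swap inequality -/
theorem swap_ineq (hP : IsP N r P) (u h l : T) (huh : u ≠ h) (hhl : h ≠ l) (j0 : B) (h0 : 2 ≤ N u j0)
    (hlam : lam N h l ≠ 0) :
    qf (P * P) (ev u h) (ev u h) * (2 - qf P (ev h l) (ev h l))
      + 2 * qf (P * P) (ev u h) (ev h l) * (1 + qf P (ev u h) (ev h l))
      - qf P (ev u h) (ev u h) * qf (P * P) (ev h l) (ev h l) ≤ 0 := by
  obtain ⟨j, hj1, hj2⟩ := exists_block N h l hlam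
  have c0 := col_two hP.des u j0 h0
  have c1 := col_pair hP.des h l hhl j hj1 hj2
  have hj : j0 ≠ j := by
    intro hj
    subst hj
    have := c0.2 h huh.symm
    omega
  have hz : ev u h + ev h l = BDesign.col N j0 - BDesign.col N j - ev u h := by
    rw [c0.1, c1, ev_eq, ev_eq]; abel
  have e := hP.swap u h j0 j huh hj (by omega) hj1 (ev u h + ev h l) hz
  rw [qf_add_right, qf_add_right, qf_add_sq P hP.symm, qf_add_sq (P * P) (sq_symm hP)] at e
  linarith

end Pool.Agent.K2
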