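import Mathlib

set_option autoImplicit false

namespace Pool.Agent.K2

private theorem px_a (s : ℝ) (hs : 0 ≤ s) :
    0 < (2 * (s + 6) + 0.5857) ^ 2 * (s + 6) ^ 2 * ((12 * (s + 6) ^ 2 + 32 * (s + 6) + 32) / 9)
      - ((s + 6) ^ 2 * (2 * (s + 6) + 4) + 2 / 3 * ((12 * (s + 6) ^ 2 + 32 * (s + 6) + 32) / 9)) ^ 2 := by
  ring_nf
  positivity

private theorem px_b (s : ℝ) (hs : 0 ≤ s) :
    0 < (2 * (s + 6) + 0.5857) ^ 2 * (s + 6) ^ 2 * ((6 * (s + 6) ^ 2 + 15 * (s + 6) + 15) / 4)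
      - ((s + 6) ^ 2 * (2 * (s + 6) + 4) + ((6 * (s + 6) ^ 2 + 15 * (s + 6) + 15) / 4)) ^ 2 := by
  ring_nf
  positivity

/-- the final inequality for `r ≥ 8` with the squares removed: `w = 1 - 1/v`, `T = w ((2-w) ρ² + w)`,
`ρ = r/(r-2)`, `c = 3.4143`; `n = r - 2` -/
theorem polyX_aux (n w T : ℝ) (hn : 6 ≤ n) (hw : w = 2 / 3 ∨ (3 / 4 ≤ w ∧ w ≤ 1))
    (hT : n ^ 2 * T = w * ((2 - w) * (n + 2) ^ 2 + w * n ^ 2)) :
    (2 * (n + 2) + w * T) ^ 2 < (2 * (n + 2) - 3.4143) ^ 2 * T := by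
  have hn0 : 0 < n := by linarith
  rcases hw with rfl | ⟨hw1, hw2⟩
  · have h := px_a (n - 6) (by linarith)
    rw [sub_add_cancel] at h
    have e1 : n ^ 2 * T = (12 * n ^ 2 + 32 * n + 32) / 9 := by rw [hT]; ring
    rw [← e1] at h
    have e2 : 0 < n ^ 4 * ((2 * (n + 2) - 3.4143) ^ 2 * T - (2 * (n + 2) + 2 / 3 * T) ^ 2) := by
      have e3 : n ^ 4 * ((2 * (n + 2) - 3.4143) ^ 2 * T - (2 * (n + 2) + 2 / 3 * T) ^ 2) =
        (2 * n + 0.5857) ^ 2 * n ^ 2 * (n ^ 2 * T) - (n ^ 2 * (2 * n + 4) + 2 / 3 * (n ^ 2 * T)) ^ 2 := by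
        ring
      rw [e3]
      exact h
    have := (mul_pos_iff_of_pos_left (by positivity : (0:ℝ) < n ^ 4)).1 e2
    linarith
  · have h := px_b (n - 6) (by linarith)
    rw [sub_add_cancel] at h
    set T1 : ℝ := (6 * n ^ 2 + 15 * n + 15) / (4 * n ^ 2) with hT1
    have e1 : n ^ 2 * T1 = (6 * n ^ 2 + 15 * n + 15) / 4 := by
      rw [hT1]; field_simp
    rw [← e1] at h
    have e2 : 0 < n ^ 4 * ((2 * n + 0.5857) ^ 2 * T1 - (2 * n + 4 + T1) ^ 2) := by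
      have e3 : n ^ 4 * ((2 * n + 0.5857) ^ 2 * T1 - (2 * n + 4 + T1) ^ 2) =
        (2 * n + 0.5857) ^ 2 * n ^ 2 * (n ^ 2 * T1) - (n ^ 2 * (2 * n + 4) + (n ^ 2 * T1)) ^ 2 := by
        ring
      rw [e3]
      exact h
    have e4 := (mul_pos_iff_of_pos_left (by positivity : (0:ℝ) < n ^ 4)).1 e2
    have hn2 : 0 < n ^ 2 := by positivity
    have e5 : T1 ≤ T := by
      have : n ^ 2 * T1 ≤ n ^ 2 * T := by
        rw [e1, hT]
        nlinarith [mul_nonneg (sub_nonneg.2 hw1) (sub_nonneg.2 hw2), sq_nonneg n,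
          mul_nonneg (mul_nonneg (sub_nonneg.2 hw1) (sub_nonneg.2 hw2)) hn0.le,
          mul_nonneg (sub_nonneg.2 hw1) hn0.le, mul_nonneg (sub_nonneg.2 hw2) hn0.le,
          mul_nonneg (mul_nonneg (sub_nonneg.2 hw1) (sub_nonneg.2 hw2)) hn2.le,
          mul_nonneg (sub_nonneg.2 hw1) hn2.le, mul_nonneg (sub_nonneg.2 hw2) hn2.le]
      exact le_of_mul_le_mul_left this hn2
    have e6 : T ≤ 4 := by
      have : n ^ 2 * T ≤ n ^ 2 * 4 := by
        rw [hT]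
        nlinarith [mul_nonneg (sub_nonneg.2 hw1) (sub_nonneg.2 hw2), sq_nonneg n,
          mul_nonneg (mul_nonneg (sub_nonneg.2 hw1) (sub_nonneg.2 hw2)) hn0.le,
          mul_nonneg (sub_nonneg.2 hw1) hn0.le, mul_nonneg (sub_nonneg.2 hw2) hn0.le,
          mul_nonneg (mul_nonneg (sub_nonneg.2 hw1) (sub_nonneg.2 hw2)) hn2.le,
          mul_nonneg (sub_nonneg.2 hw1) hn2.le, mul_nonneg (sub_nonneg.2 hw2) hn2.le]
      exact le_of_mul_le_mul_left this hn2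
    have hT0 : 0 ≤ T1 := by rw [hT1]; positivity
    have hT0' : 0 ≤ T := hT0.trans e5
    have e7 : (2 * (n + 2) + w * T) ^ 2 ≤ (2 * n + 4 + T) ^ 2 := by
      apply pow_le_pow_left₀
      · nlinarith
      · nlinarith
    have e8 : (2 * n + 4 + T) ^ 2 < (2 * n + 0.5857) ^ 2 * T := by
      have h1 : 0 ≤ (T - T1) * (4 - T) := mul_nonneg (by linarith) (by linarith)
      have h2 : 0 ≤ (T - T1) * ((2 * n + 0.5857) ^ 2 - 2 * (2 * n + 4) - T1 - 4) :=
        mul_nonneg (by linarith) (by nlinarith)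
      nlinarith
    calc (2 * (n + 2) + w * T) ^ 2 ≤ (2 * n + 4 + T) ^ 2 := e7
      _ < (2 * n + 0.5857) ^ 2 * T := e8
      _ = (2 * (n + 2) - 3.4143) ^ 2 * T := by ring

private theorem px_fin (r w P Y T : ℝ) (hr : 8 ≤ r) (hw0 : 2 / 3 ≤ w) (hw1 : w ≤ 1) (hP : 0 ≤ P)
    (hP1 : P ≤ r - 1) (hT : 0 < T) (hYT : w * T ≤ Y) (hPY : P ^ 2 ≤ w * Y)
    (hmain : (2 * r + w * T) ^ 2 < (2 * r - 3.4143) ^ 2 * T)
    (h : Y * (2 * r - 3.4143 - P) ≤ 2 * r * P) : False := by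
  have hw : 0 < w := by linarith
  have hwT : 0 < w * T := mul_pos hw hT
  have hY : 0 < Y := lt_of_lt_of_le hwT hYT
  have hM : 0 < 2 * r - 3.4143 - P := by linarith
  have hPpos : 0 < P := by
    rcases hP.eq_or_lt with h0 | h0
    · exfalso
      rw [← h0] at h
      have := mul_pos hY (by rw [← h0] at hM; exact hM)
      linarith
    · exact h0
  -- `P (c' - P) ≤ 2 r w`
  have e1 : P * (2 * r - 3.4143 - P) ≤ 2 * r * w := by
    have h1 : P ^ 2 * (2 * r - 3.4143 - P) ≤ w * Y * (2 * r - 3.4143 - P) :=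
      mul_le_mul_of_nonneg_right hPY hM.le
    have h2 : w * (Y * (2 * r - 3.4143 - P)) ≤ w * (2 * r * P) := mul_le_mul_of_nonneg_left h hw.le
    have h3 : P * (P * (2 * r - 3.4143 - P)) ≤ P * (2 * r * w) := by nlinarith
    exact le_of_mul_le_mul_left h3 hPpos
  -- `w T c' ≤ P (2 r + w T)`
  have e2 : w * T * (2 * r - 3.4143) ≤ P * (2 * r + w * T) := by
    have h1 : w * T * (2 * r - 3.4143 - P) ≤ Y * (2 * r - 3.4143 - P) :=
      mul_le_mul_of_nonneg_right hYT hM.le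
    nlinarith
  have hD : 0 < 2 * r + w * T := by linarith
  obtain ⟨S, hS⟩ : ∃ S : ℝ, S * (2 * r + w * T) = w * T * (2 * r - 3.4143) :=
    ⟨w * T * (2 * r - 3.4143) / (2 * r + w * T), by field_simp⟩
  have e3 : S ≤ P := by
    have : S * (2 * r + w * T) ≤ P * (2 * r + w * T) := by rw [hS]; exact e2
    exact le_of_mul_le_mul_right this hD
  -- `S (c' - S) > 2 r w`
  have e4 : 2 * r * w < S * (2 * r - 3.4143 - S) := by
    have h1 : (2 * r + w * T) ^ 2 * (2 * r * w) < (2 * r + w * T) ^ 2 * (S * (2 * r - 3.4143 - S)) := by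
      have h2 : (2 * r + w * T) ^ 2 * (S * (2 * r - 3.4143 - S)) =
          (S * (2 * r + w * T)) * ((2 * r + w * T) * (2 * r - 3.4143) - S * (2 * r + w * T)) := by ring
      rw [h2, hS]
      have h3 : w * T * (2 * r - 3.4143) * ((2 * r + w * T) * (2 * r - 3.4143) - w * T * (2 * r - 3.4143))
          = (2 * r * w) * ((2 * r - 3.4143) ^ 2 * T) := by ring
      rw [h3, mul_comm ((2 * r + w * T) ^ 2)]
      exact mul_lt_mul_of_pos_left hmain (by positivity)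
    exact lt_of_mul_lt_mul_left h1 (by positivity)
  have e5 : 2 * r * w < (r - 1) * (r - 2.4143) := by nlinarith
  have e6 : 0 ≤ (P - S) * (r - 1 - P) := mul_nonneg (by linarith) (by linarith)
  rcases le_total 0 (2 * r - 3.4143 - S - (r - 1)) with h7 | h7
  · nlinarith [mul_nonneg (sub_nonneg.2 e3) h7]
  · nlinarith [mul_nonneg (sub_nonneg.2 hP1) (neg_nonneg.2 h7)]

theorem polyX (r w κ p q F : ℝ) (hr : 8 ≤ r) (hw : w = 2 / 3 ∨ (3 / 4 ≤ w ∧ w ≤ 1)) (hp : 0 ≤ p)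
    (h1 : F * (2 * r - κ) ≤ 2 * p * (1 + (p + q))) (h2 : κ ≤ r) (h2' : κ ≤ 1 + r * p)
    (h3 : p ^ 2 + q ^ 2 ≤ F) (h4 : p ^ 2 ≤ w * F)
    (h5 : w ^ 2 * ((2 - w) * r ^ 2 + w * (r - 2) ^ 2) ≤ (r - 2) ^ 2 * (r ^ 2 * F)) : False := by
  have hw0 : 2 / 3 ≤ w := by rcases hw with h | h <;> linarith [h]
  have hw1 : w ≤ 1 := by rcases hw with h | h <;> linarith [h]
  have hF : 0 ≤ F := by nlinarith [sq_nonneg p, sq_nonneg q]
  have e1 : 2 * p * (p + q) ≤ 2.4143 * F := by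
    nlinarith [sq_nonneg (p - 2.4143 * q), sq_nonneg q, sq_nonneg p]
  have e2 : F * (2 * r - κ - 2.4143) ≤ 2 * p := by nlinarith
  rcases le_total (r * p) (r - 1) with hc | hc
  · -- `r p ≤ r - 1`
    have e3 : F * (2 * r - 3.4143 - r * p) ≤ 2 * p := by
      have : F * κ ≤ F * (1 + r * p) := mul_le_mul_of_nonneg_left h2' hF
      nlinarith
    have hr2 : 0 < (r - 2) ^ 2 := by
      have : 0 < r - 2 := by linarith
      positivity
    set T : ℝ := w * ((2 - w) * r ^ 2 + w * (r - 2) ^ 2) / (r - 2) ^ 2 with hT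
    have hTe : (r - 2) ^ 2 * T = w * ((2 - w) * r ^ 2 + w * (r - 2) ^ 2) := by
      rw [hT, ← mul_div_assoc, mul_div_cancel_left₀ _ hr2.ne']
    have hT0 : 0 < T := by
      rw [hT]
      have : 0 < 2 - w := by linarith
      have : 0 < w := by linarith
      positivity
    refine px_fin r w (r * p) (r ^ 2 * F) T hr hw0 hw1 (by positivity) hc hT0 ?_ ?_ ?_ ?_
    · have : (r - 2) ^ 2 * (w * T) ≤ (r - 2) ^ 2 * (r ^ 2 * F) := by
        calc (r - 2) ^ 2 * (w * T) = w * ((r - 2) ^ 2 * T) := by ring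
          _ = w ^ 2 * ((2 - w) * r ^ 2 + w * (r - 2) ^ 2) := by rw [hTe]; ring
          _ ≤ _ := h5
      exact le_of_mul_le_mul_left this hr2
    · have := mul_le_mul_of_nonneg_left h4 (sq_nonneg r)
      nlinarith
    · have := polyX_aux (r - 2) w T (by linarith) hw (by rw [hTe]; ring)
      rw [sub_add_cancel] at this
      exact this
    · have := mul_le_mul_of_nonneg_left e3 (sq_nonneg r)
      nlinarith
  · -- `r p ≥ r - 1`
    have e3 : F * (r - 2.4143) ≤ 2 * p := by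
      have : F * κ ≤ F * r := mul_le_mul_of_nonneg_left h2 hF
      nlinarith
    have hp7 : 7 / 8 ≤ p := by nlinarith
    have e4 : p ^ 2 ≤ F := h4.trans (by nlinarith)
    have e5 : p * (p * (r - 2.4143)) ≤ p * 2 := by
      have := mul_le_mul_of_nonneg_right e4 (by linarith : 0 ≤ r - 2.4143)
      nlinarith
    have e6 := le_of_mul_le_mul_left e5 (by linarith)
    nlinarith

end Pool.Agent.K2
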