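import Mathlib

set_option autoImplicit false

/-!
Polynomial inequalities for `3 ≤ r ≤ 7` (`m = lam u h ≤ r - 2`, `P = r p`, `Q = r q`).
-/

namespace Pool.Agent.K2

private theorem yA_3_0 (P Q : ℝ) (hP : 0 ≤ P) (hQ : 0 ≤ Q) (hP1 : P ≤ 2) (hs : 12 ≤ (P + Q) * 3) :
    0 < (5 * (P ^ 2 + Q ^ 2) + (3 - 3 * P - 0 * Q) ^ 2) * (5 - P) - 5 * (2 * P * (3 + (P + Q))) := by
  nlinarith [mul_nonneg hP hQ, mul_nonneg hP (sub_nonneg.2 hP1), mul_nonneg hQ (sub_nonneg.2 hP1),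
    mul_nonneg hP (sub_nonneg.2 hs), mul_nonneg hQ (sub_nonneg.2 hs),
    mul_nonneg (sub_nonneg.2 hP1) (sub_nonneg.2 hs), mul_nonneg (sub_nonneg.2 hP1) (sq_nonneg (P - Q)),
    mul_nonneg (sub_nonneg.2 hP1) (sq_nonneg (3 - 3 * P - 0 * Q)), sq_nonneg (P - Q),
    sq_nonneg (3 - 3 * P - 0 * Q)]

private theorem yB_3_0 (P Q : ℝ) (hQ : 0 ≤ Q) (hP1 : 2 ≤ P) (hs : 12 ≤ (P + Q) * 3) :
    0 < (5 * (P ^ 2 + Q ^ 2) + (3 - 3 * P - 0 * Q) ^ 2) * 3 - 5 * (2 * P * (3 + (P + Q))) := by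
  nlinarith [mul_nonneg hQ (sub_nonneg.2 hP1), mul_nonneg hQ (sub_nonneg.2 hs),
    mul_nonneg (sub_nonneg.2 hP1) (sub_nonneg.2 hs), sq_nonneg (P - Q),
    sq_nonneg (3 - 3 * P - 0 * Q), sq_nonneg (P - 2), sq_nonneg Q]

private theorem yA_3_1 (P Q : ℝ) (hP : 0 ≤ P) (hQ : 0 ≤ Q) (hP1 : P ≤ 2) (hs : 6 ≤ (P + Q) * 2) :
    0 < (4 * (P ^ 2 + Q ^ 2) + (3 - 3 * P - 1 * Q) ^ 2) * (5 - P) - 4 * (2 * P * (3 + (P + Q))) := by
  nlinarith [mul_nonneg hP hQ, mul_nonneg hP (sub_nonneg.2 hP1), mul_nonneg hQ (sub_nonneg.2 hP1),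
    mul_nonneg hP (sub_nonneg.2 hs), mul_nonneg hQ (sub_nonneg.2 hs),
    mul_nonneg (sub_nonneg.2 hP1) (sub_nonneg.2 hs), mul_nonneg (sub_nonneg.2 hP1) (sq_nonneg (P - Q)),
    mul_nonneg (sub_nonneg.2 hP1) (sq_nonneg (3 - 3 * P - 1 * Q)), sq_nonneg (P - Q),
    sq_nonneg (3 - 3 * P - 1 * Q)]

private theorem yB_3_1 (P Q : ℝ) (hQ : 0 ≤ Q) (hP1 : 2 ≤ P) (hs : 6 ≤ (P + Q) * 2) :
    0 < (4 * (P ^ 2 + Q ^ 2) + (3 - 3 * P - 1 * Q) ^ 2) * 3 - 4 * (2 * P * (3 + (P + Q))) := by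
  nlinarith [mul_nonneg hQ (sub_nonneg.2 hP1), mul_nonneg hQ (sub_nonneg.2 hs),
    mul_nonneg (sub_nonneg.2 hP1) (sub_nonneg.2 hs), sq_nonneg (P - Q),
    sq_nonneg (3 - 3 * P - 1 * Q), sq_nonneg (P - 2), sq_nonneg Q]

private theorem yA_4_0 (P Q : ℝ) (hP : 0 ≤ P) (hQ : 0 ≤ Q) (hP1 : P ≤ 3) (hs : 24 ≤ (P + Q) * 8) :
    0 < (16 * (P ^ 2 + Q ^ 2) + (4 - 4 * P - 0 * Q) ^ 2) * (7 - P) - 16 * (2 * P * (4 + (P + Q))) := by
  nlinarith [mul_nonneg hP hQ, mul_nonneg hP (sub_nonneg.2 hP1), mul_nonneg hQ (sub_nonneg.2 hP1),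
    mul_nonneg hP (sub_nonneg.2 hs), mul_nonneg hQ (sub_nonneg.2 hs),
    mul_nonneg (sub_nonneg.2 hP1) (sub_nonneg.2 hs), mul_nonneg (sub_nonneg.2 hP1) (sq_nonneg (P - Q)),
    mul_nonneg (sub_nonneg.2 hP1) (sq_nonneg (4 - 4 * P - 0 * Q)), sq_nonneg (P - Q),
    sq_nonneg (4 - 4 * P - 0 * Q)]

private theorem yB_4_0 (P Q : ℝ) (hQ : 0 ≤ Q) (hP1 : 3 ≤ P) (hs : 24 ≤ (P + Q) * 8) :
    0 < (16 * (P ^ 2 + Q ^ 2) + (4 - 4 * P - 0 * Q) ^ 2) * 4 - 16 * (2 * P * (4 + (P + Q))) := by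
  nlinarith [mul_nonneg hQ (sub_nonneg.2 hP1), mul_nonneg hQ (sub_nonneg.2 hs),
    mul_nonneg (sub_nonneg.2 hP1) (sub_nonneg.2 hs), sq_nonneg (P - Q),
    sq_nonneg (4 - 4 * P - 0 * Q), sq_nonneg (P - 3), sq_nonneg Q]

private theorem yA_4_1 (P Q : ℝ) (hP : 0 ≤ P) (hQ : 0 ≤ Q) (hP1 : P ≤ 3) (hs : 16 ≤ (P + Q) * 7) :
    0 < (9 * (P ^ 2 + Q ^ 2) + (4 - 4 * P - 1 * Q) ^ 2) * (7 - P) - 9 * (2 * P * (4 + (P + Q))) := by
  nlinarith [mul_nonneg hP hQ, mul_nonneg hP (sub_nonneg.2 hP1), mul_nonneg hQ (sub_nonneg.2 hP1),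
    mul_nonneg hP (sub_nonneg.2 hs), mul_nonneg hQ (sub_nonneg.2 hs),
    mul_nonneg (sub_nonneg.2 hP1) (sub_nonneg.2 hs), mul_nonneg (sub_nonneg.2 hP1) (sq_nonneg (P - Q)),
    mul_nonneg (sub_nonneg.2 hP1) (sq_nonneg (4 - 4 * P - 1 * Q)), sq_nonneg (P - Q),
    sq_nonneg (4 - 4 * P - 1 * Q)]

private theorem yB_4_1 (P Q : ℝ) (hQ : 0 ≤ Q) (hP1 : 3 ≤ P) (hs : 16 ≤ (P + Q) * 7) :
    0 < (9 * (P ^ 2 + Q ^ 2) + (4 - 4 * P - 1 * Q) ^ 2) * 4 - 9 * (2 * P * (4 + (P + Q))) := by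
  nlinarith [mul_nonneg hQ (sub_nonneg.2 hP1), mul_nonneg hQ (sub_nonneg.2 hs),
    mul_nonneg (sub_nonneg.2 hP1) (sub_nonneg.2 hs), sq_nonneg (P - Q),
    sq_nonneg (4 - 4 * P - 1 * Q), sq_nonneg (P - 3), sq_nonneg Q]

private theorem yA_4_2 (P Q : ℝ) (hP : 0 ≤ P) (hQ : 0 ≤ Q) (hP1 : P ≤ 3) (hs : 8 ≤ (P + Q) * 4) :
    0 < (4 * (P ^ 2 + Q ^ 2) + (4 - 4 * P - 2 * Q) ^ 2) * (7 - P) - 4 * (2 * P * (4 + (P + Q))) := by
  nlinarith [mul_nonneg hP hQ, mul_nonneg hP (sub_nonneg.2 hP1), mul_nonneg hQ (sub_nonneg.2 hP1),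
    mul_nonneg hP (sub_nonneg.2 hs), mul_nonneg hQ (sub_nonneg.2 hs),
    mul_nonneg (sub_nonneg.2 hP1) (sub_nonneg.2 hs), mul_nonneg (sub_nonneg.2 hP1) (sq_nonneg (P - Q)),
    mul_nonneg (sub_nonneg.2 hP1) (sq_nonneg (4 - 4 * P - 2 * Q)), sq_nonneg (P - Q),
    sq_nonneg (4 - 4 * P - 2 * Q)]

private theorem yB_4_2 (P Q : ℝ) (hQ : 0 ≤ Q) (hP1 : 3 ≤ P) (hs : 8 ≤ (P + Q) * 4) :
    0 < (4 * (P ^ 2 + Q ^ 2) + (4 - 4 * P - 2 * Q) ^ 2) * 4 - 4 * (2 * P * (4 + (P + Q))) := by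
  nlinarith [mul_nonneg hQ (sub_nonneg.2 hP1), mul_nonneg hQ (sub_nonneg.2 hs),
    mul_nonneg (sub_nonneg.2 hP1) (sub_nonneg.2 hs), sq_nonneg (P - Q),
    sq_nonneg (4 - 4 * P - 2 * Q), sq_nonneg (P - 3), sq_nonneg Q]

private theorem yA_5_0 (P Q : ℝ) (hP : 0 ≤ P) (hQ : 0 ≤ Q) (hP1 : P ≤ 4) (hs : 40 ≤ (P + Q) * 15) :
    0 < (25 * (P ^ 2 + Q ^ 2) + (5 - 5 * P - 0 * Q) ^ 2) * (9 - P) - 25 * (2 * P * (5 + (P + Q))) := by
  nlinarith [mul_nonneg hP hQ, mul_nonneg hP (sub_nonneg.2 hP1), mul_nonneg hQ (sub_nonneg.2 hP1),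
    mul_nonneg hP (sub_nonneg.2 hs), mul_nonneg hQ (sub_nonneg.2 hs),
    mul_nonneg (sub_nonneg.2 hP1) (sub_nonneg.2 hs), mul_nonneg (sub_nonneg.2 hP1) (sq_nonneg (P - Q)),
    mul_nonneg (sub_nonneg.2 hP1) (sq_nonneg (5 - 5 * P - 0 * Q)), sq_nonneg (P - Q),
    sq_nonneg (5 - 5 * P - 0 * Q)]

private theorem yB_5_0 (P Q : ℝ) (hQ : 0 ≤ Q) (hP1 : 4 ≤ P) (hs : 40 ≤ (P + Q) * 15) :
    0 < (25 * (P ^ 2 + Q ^ 2) + (5 - 5 * P - 0 * Q) ^ 2) * 5 - 25 * (2 * P * (5 + (P + Q))) := by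
  nlinarith [mul_nonneg hQ (sub_nonneg.2 hP1), mul_nonneg hQ (sub_nonneg.2 hs),
    mul_nonneg (sub_nonneg.2 hP1) (sub_nonneg.2 hs), sq_nonneg (P - Q),
    sq_nonneg (5 - 5 * P - 0 * Q), sq_nonneg (P - 4), sq_nonneg Q]

private theorem yA_5_1 (P Q : ℝ) (hP : 0 ≤ P) (hQ : 0 ≤ Q) (hP1 : P ≤ 4) (hs : 30 ≤ (P + Q) * 14) :
    0 < (16 * (P ^ 2 + Q ^ 2) + (5 - 5 * P - 1 * Q) ^ 2) * (9 - P) - 16 * (2 * P * (5 + (P + Q))) := by
  nlinarith [mul_nonneg hP hQ, mul_nonneg hP (sub_nonneg.2 hP1), mul_nonneg hQ (sub_nonneg.2 hP1),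
    mul_nonneg hP (sub_nonneg.2 hs), mul_nonneg hQ (sub_nonneg.2 hs),
    mul_nonneg (sub_nonneg.2 hP1) (sub_nonneg.2 hs), mul_nonneg (sub_nonneg.2 hP1) (sq_nonneg (P - Q)),
    mul_nonneg (sub_nonneg.2 hP1) (sq_nonneg (5 - 5 * P - 1 * Q)), sq_nonneg (P - Q),
    sq_nonneg (5 - 5 * P - 1 * Q)]

private theorem yB_5_1 (P Q : ℝ) (hQ : 0 ≤ Q) (hP1 : 4 ≤ P) (hs : 30 ≤ (P + Q) * 14) :
    0 < (16 * (P ^ 2 + Q ^ 2) + (5 - 5 * P - 1 * Q) ^ 2) * 5 - 16 * (2 * P * (5 + (P + Q))) := by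
  nlinarith [mul_nonneg hQ (sub_nonneg.2 hP1), mul_nonneg hQ (sub_nonneg.2 hs),
    mul_nonneg (sub_nonneg.2 hP1) (sub_nonneg.2 hs), sq_nonneg (P - Q),
    sq_nonneg (5 - 5 * P - 1 * Q), sq_nonneg (P - 4), sq_nonneg Q]

private theorem yA_5_2 (P Q : ℝ) (hP : 0 ≤ P) (hQ : 0 ≤ Q) (hP1 : P ≤ 4) (hs : 20 ≤ (P + Q) * 11) :
    0 < (9 * (P ^ 2 + Q ^ 2) + (5 - 5 * P - 2 * Q) ^ 2) * (9 - P) - 9 * (2 * P * (5 + (P + Q))) := by
  nlinarith [mul_nonneg hP hQ, mul_nonneg hP (sub_nonneg.2 hP1), mul_nonneg hQ (sub_nonneg.2 hP1),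
    mul_nonneg hP (sub_nonneg.2 hs), mul_nonneg hQ (sub_nonneg.2 hs),
    mul_nonneg (sub_nonneg.2 hP1) (sub_nonneg.2 hs), mul_nonneg (sub_nonneg.2 hP1) (sq_nonneg (P - Q)),
    mul_nonneg (sub_nonneg.2 hP1) (sq_nonneg (5 - 5 * P - 2 * Q)), sq_nonneg (P - Q),
    sq_nonneg (5 - 5 * P - 2 * Q)]

private theorem yB_5_2 (P Q : ℝ) (hQ : 0 ≤ Q) (hP1 : 4 ≤ P) (hs : 20 ≤ (P + Q) * 11) :
    0 < (9 * (P ^ 2 + Q ^ 2) + (5 - 5 * P - 2 * Q) ^ 2) * 5 - 9 * (2 * P * (5 + (P + Q))) := by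
  nlinarith [mul_nonneg hQ (sub_nonneg.2 hP1), mul_nonneg hQ (sub_nonneg.2 hs),
    mul_nonneg (sub_nonneg.2 hP1) (sub_nonneg.2 hs), sq_nonneg (P - Q),
    sq_nonneg (5 - 5 * P - 2 * Q), sq_nonneg (P - 4), sq_nonneg Q]

private theorem yA_5_3 (P Q : ℝ) (hP : 0 ≤ P) (hQ : 0 ≤ Q) (hP1 : P ≤ 4) (hs : 10 ≤ (P + Q) * 6) :
    0 < (4 * (P ^ 2 + Q ^ 2) + (5 - 5 * P - 3 * Q) ^ 2) * (9 - P) - 4 * (2 * P * (5 + (P + Q))) := by
  nlinarith [mul_nonneg hP hQ, mul_nonneg hP (sub_nonneg.2 hP1), mul_nonneg hQ (sub_nonneg.2 hP1),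
    mul_nonneg hP (sub_nonneg.2 hs), mul_nonneg hQ (sub_nonneg.2 hs),
    mul_nonneg (sub_nonneg.2 hP1) (sub_nonneg.2 hs), mul_nonneg (sub_nonneg.2 hP1) (sq_nonneg (P - Q)),
    mul_nonneg (sub_nonneg.2 hP1) (sq_nonneg (5 - 5 * P - 3 * Q)), sq_nonneg (P - Q),
    sq_nonneg (5 - 5 * P - 3 * Q)]

private theorem yB_5_3 (P Q : ℝ) (hQ : 0 ≤ Q) (hP1 : 4 ≤ P) (hs : 10 ≤ (P + Q) * 6) :
    0 < (4 * (P ^ 2 + Q ^ 2) + (5 - 5 * P - 3 * Q) ^ 2) * 5 - 4 * (2 * P * (5 + (P + Q))) := by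
  nlinarith [mul_nonneg hQ (sub_nonneg.2 hP1), mul_nonneg hQ (sub_nonneg.2 hs),
    mul_nonneg (sub_nonneg.2 hP1) (sub_nonneg.2 hs), sq_nonneg (P - Q),
    sq_nonneg (5 - 5 * P - 3 * Q), sq_nonneg (P - 4), sq_nonneg Q]

private theorem yA_6_0 (P Q : ℝ) (hP : 0 ≤ P) (hQ : 0 ≤ Q) (hP1 : P ≤ 5) (hs : 60 ≤ (P + Q) * 24) :
    0 < (36 * (P ^ 2 + Q ^ 2) + (6 - 6 * P - 0 * Q) ^ 2) * (11 - P) - 36 * (2 * P * (6 + (P + Q))) := by
  nlinarith [mul_nonneg hP hQ, mul_nonneg hP (sub_nonneg.2 hP1), mul_nonneg hQ (sub_nonneg.2 hP1),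
    mul_nonneg hP (sub_nonneg.2 hs), mul_nonneg hQ (sub_nonneg.2 hs),
    mul_nonneg (sub_nonneg.2 hP1) (sub_nonneg.2 hs), mul_nonneg (sub_nonneg.2 hP1) (sq_nonneg (P - Q)),
    mul_nonneg (sub_nonneg.2 hP1) (sq_nonneg (6 - 6 * P - 0 * Q)), sq_nonneg (P - Q),
    sq_nonneg (6 - 6 * P - 0 * Q)]

private theorem yB_6_0 (P Q : ℝ) (hQ : 0 ≤ Q) (hP1 : 5 ≤ P) (hs : 60 ≤ (P + Q) * 24) :
    0 < (36 * (P ^ 2 + Q ^ 2) + (6 - 6 * P - 0 * Q) ^ 2) * 6 - 36 * (2 * P * (6 + (P + Q))) := by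
  nlinarith [mul_nonneg hQ (sub_nonneg.2 hP1), mul_nonneg hQ (sub_nonneg.2 hs),
    mul_nonneg (sub_nonneg.2 hP1) (sub_nonneg.2 hs), sq_nonneg (P - Q),
    sq_nonneg (6 - 6 * P - 0 * Q), sq_nonneg (P - 5), sq_nonneg Q]

private theorem yA_6_1 (P Q : ℝ) (hP : 0 ≤ P) (hQ : 0 ≤ Q) (hP1 : P ≤ 5) (hs : 48 ≤ (P + Q) * 23) :
    0 < (25 * (P ^ 2 + Q ^ 2) + (6 - 6 * P - 1 * Q) ^ 2) * (11 - P) - 25 * (2 * P * (6 + (P + Q))) := by
  nlinarith [mul_nonneg hP hQ, mul_nonneg hP (sub_nonneg.2 hP1), mul_nonneg hQ (sub_nonneg.2 hP1),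
    mul_nonneg hP (sub_nonneg.2 hs), mul_nonneg hQ (sub_nonneg.2 hs),
    mul_nonneg (sub_nonneg.2 hP1) (sub_nonneg.2 hs), mul_nonneg (sub_nonneg.2 hP1) (sq_nonneg (P - Q)),
    mul_nonneg (sub_nonneg.2 hP1) (sq_nonneg (6 - 6 * P - 1 * Q)), sq_nonneg (P - Q),
    sq_nonneg (6 - 6 * P - 1 * Q)]

private theorem yB_6_1 (P Q : ℝ) (hQ : 0 ≤ Q) (hP1 : 5 ≤ P) (hs : 48 ≤ (P + Q) * 23) :
    0 < (25 * (P ^ 2 + Q ^ 2) + (6 - 6 * P - 1 * Q) ^ 2) * 6 - 25 * (2 * P * (6 + (P + Q))) := by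
  nlinarith [mul_nonneg hQ (sub_nonneg.2 hP1), mul_nonneg hQ (sub_nonneg.2 hs),
    mul_nonneg (sub_nonneg.2 hP1) (sub_nonneg.2 hs), sq_nonneg (P - Q),
    sq_nonneg (6 - 6 * P - 1 * Q), sq_nonneg (P - 5), sq_nonneg Q]

private theorem yA_6_2 (P Q : ℝ) (hP : 0 ≤ P) (hQ : 0 ≤ Q) (hP1 : P ≤ 5) (hs : 36 ≤ (P + Q) * 20) :
    0 < (16 * (P ^ 2 + Q ^ 2) + (6 - 6 * P - 2 * Q) ^ 2) * (11 - P) - 16 * (2 * P * (6 + (P + Q))) := by
  nlinarith [mul_nonneg hP hQ, mul_nonneg hP (sub_nonneg.2 hP1), mul_nonneg hQ (sub_nonneg.2 hP1),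
    mul_nonneg hP (sub_nonneg.2 hs), mul_nonneg hQ (sub_nonneg.2 hs),
    mul_nonneg (sub_nonneg.2 hP1) (sub_nonneg.2 hs), mul_nonneg (sub_nonneg.2 hP1) (sq_nonneg (P - Q)),
    mul_nonneg (sub_nonneg.2 hP1) (sq_nonneg (6 - 6 * P - 2 * Q)), sq_nonneg (P - Q),
    sq_nonneg (6 - 6 * P - 2 * Q)]

private theorem yB_6_2 (P Q : ℝ) (hQ : 0 ≤ Q) (hP1 : 5 ≤ P) (hs : 36 ≤ (P + Q) * 20) :
    0 < (16 * (P ^ 2 + Q ^ 2) + (6 - 6 * P - 2 * Q) ^ 2) * 6 - 16 * (2 * P * (6 + (P + Q))) := by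
  nlinarith [mul_nonneg hQ (sub_nonneg.2 hP1), mul_nonneg hQ (sub_nonneg.2 hs),
    mul_nonneg (sub_nonneg.2 hP1) (sub_nonneg.2 hs), sq_nonneg (P - Q),
    sq_nonneg (6 - 6 * P - 2 * Q), sq_nonneg (P - 5), sq_nonneg Q]

private theorem yA_6_3 (P Q : ℝ) (hP : 0 ≤ P) (hQ : 0 ≤ Q) (hP1 : P ≤ 5) (hs : 24 ≤ (P + Q) * 15) :
    0 < (9 * (P ^ 2 + Q ^ 2) + (6 - 6 * P - 3 * Q) ^ 2) * (11 - P) - 9 * (2 * P * (6 + (P + Q))) := by
  nlinarith [mul_nonneg hP hQ, mul_nonneg hP (sub_nonneg.2 hP1), mul_nonneg hQ (sub_nonneg.2 hP1),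
    mul_nonneg hP (sub_nonneg.2 hs), mul_nonneg hQ (sub_nonneg.2 hs),
    mul_nonneg (sub_nonneg.2 hP1) (sub_nonneg.2 hs), mul_nonneg (sub_nonneg.2 hP1) (sq_nonneg (P - Q)),
    mul_nonneg (sub_nonneg.2 hP1) (sq_nonneg (6 - 6 * P - 3 * Q)), sq_nonneg (P - Q),
    sq_nonneg (6 - 6 * P - 3 * Q)]

private theorem yB_6_3 (P Q : ℝ) (hQ : 0 ≤ Q) (hP1 : 5 ≤ P) (hs : 24 ≤ (P + Q) * 15) :
    0 < (9 * (P ^ 2 + Q ^ 2) + (6 - 6 * P - 3 * Q) ^ 2) * 6 - 9 * (2 * P * (6 + (P + Q))) := by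
  nlinarith [mul_nonneg hQ (sub_nonneg.2 hP1), mul_nonneg hQ (sub_nonneg.2 hs),
    mul_nonneg (sub_nonneg.2 hP1) (sub_nonneg.2 hs), sq_nonneg (P - Q),
    sq_nonneg (6 - 6 * P - 3 * Q), sq_nonneg (P - 5), sq_nonneg Q]

private theorem yA_6_4 (P Q : ℝ) (hP : 0 ≤ P) (hQ : 0 ≤ Q) (hP1 : P ≤ 5) (hs : 12 ≤ (P + Q) * 8) :
    0 < (4 * (P ^ 2 + Q ^ 2) + (6 - 6 * P - 4 * Q) ^ 2) * (11 - P) - 4 * (2 * P * (6 + (P + Q))) := by
  nlinarith [mul_nonneg hP hQ, mul_nonneg hP (sub_nonneg.2 hP1), mul_nonneg hQ (sub_nonneg.2 hP1),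
    mul_nonneg hP (sub_nonneg.2 hs), mul_nonneg hQ (sub_nonneg.2 hs),
    mul_nonneg (sub_nonneg.2 hP1) (sub_nonneg.2 hs), mul_nonneg (sub_nonneg.2 hP1) (sq_nonneg (P - Q)),
    mul_nonneg (sub_nonneg.2 hP1) (sq_nonneg (6 - 6 * P - 4 * Q)), sq_nonneg (P - Q),
    sq_nonneg (6 - 6 * P - 4 * Q)]

private theorem yB_6_4 (P Q : ℝ) (hQ : 0 ≤ Q) (hP1 : 5 ≤ P) (hs : 12 ≤ (P + Q) * 8) :
    0 < (4 * (P ^ 2 + Q ^ 2) + (6 - 6 * P - 4 * Q) ^ 2) * 6 - 4 * (2 * P * (6 + (P + Q))) := by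
  nlinarith [mul_nonneg hQ (sub_nonneg.2 hP1), mul_nonneg hQ (sub_nonneg.2 hs),
    mul_nonneg (sub_nonneg.2 hP1) (sub_nonneg.2 hs), sq_nonneg (P - Q),
    sq_nonneg (6 - 6 * P - 4 * Q), sq_nonneg (P - 5), sq_nonneg Q]

private theorem yA_7_0 (P Q : ℝ) (hP : 0 ≤ P) (hQ : 0 ≤ Q) (hP1 : P ≤ 6) (hs : 84 ≤ (P + Q) * 35) :
    0 < (49 * (P ^ 2 + Q ^ 2) + (7 - 7 * P - 0 * Q) ^ 2) * (13 - P) - 49 * (2 * P * (7 + (P + Q))) := by
  nlinarith [mul_nonneg hP hQ, mul_nonneg hP (sub_nonneg.2 hP1), mul_nonneg hQ (sub_nonneg.2 hP1),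
    mul_nonneg hP (sub_nonneg.2 hs), mul_nonneg hQ (sub_nonneg.2 hs),
    mul_nonneg (sub_nonneg.2 hP1) (sub_nonneg.2 hs), mul_nonneg (sub_nonneg.2 hP1) (sq_nonneg (P - Q)),
    mul_nonneg (sub_nonneg.2 hP1) (sq_nonneg (7 - 7 * P - 0 * Q)), sq_nonneg (P - Q),
    sq_nonneg (7 - 7 * P - 0 * Q)]

private theorem yB_7_0 (P Q : ℝ) (hQ : 0 ≤ Q) (hP1 : 6 ≤ P) (hs : 84 ≤ (P + Q) * 35) :
    0 < (49 * (P ^ 2 + Q ^ 2) + (7 - 7 * P - 0 * Q) ^ 2) * 7 - 49 * (2 * P * (7 + (P + Q))) := by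
  nlinarith [mul_nonneg hQ (sub_nonneg.2 hP1), mul_nonneg hQ (sub_nonneg.2 hs),
    mul_nonneg (sub_nonneg.2 hP1) (sub_nonneg.2 hs), sq_nonneg (P - Q),
    sq_nonneg (7 - 7 * P - 0 * Q), sq_nonneg (P - 6), sq_nonneg Q]

private theorem yA_7_1 (P Q : ℝ) (hP : 0 ≤ P) (hQ : 0 ≤ Q) (hP1 : P ≤ 6) (hs : 70 ≤ (P + Q) * 34) :
    0 < (36 * (P ^ 2 + Q ^ 2) + (7 - 7 * P - 1 * Q) ^ 2) * (13 - P) - 36 * (2 * P * (7 + (P + Q))) := by
  nlinarith [mul_nonneg hP hQ, mul_nonneg hP (sub_nonneg.2 hP1), mul_nonneg hQ (sub_nonneg.2 hP1),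
    mul_nonneg hP (sub_nonneg.2 hs), mul_nonneg hQ (sub_nonneg.2 hs),
    mul_nonneg (sub_nonneg.2 hP1) (sub_nonneg.2 hs), mul_nonneg (sub_nonneg.2 hP1) (sq_nonneg (P - Q)),
    mul_nonneg (sub_nonneg.2 hP1) (sq_nonneg (7 - 7 * P - 1 * Q)), sq_nonneg (P - Q),
    sq_nonneg (7 - 7 * P - 1 * Q)]

private theorem yB_7_1 (P Q : ℝ) (hQ : 0 ≤ Q) (hP1 : 6 ≤ P) (hs : 70 ≤ (P + Q) * 34) :
    0 < (36 * (P ^ 2 + Q ^ 2) + (7 - 7 * P - 1 * Q) ^ 2) * 7 - 36 * (2 * P * (7 + (P + Q))) := by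
  nlinarith [mul_nonneg hQ (sub_nonneg.2 hP1), mul_nonneg hQ (sub_nonneg.2 hs),
    mul_nonneg (sub_nonneg.2 hP1) (sub_nonneg.2 hs), sq_nonneg (P - Q),
    sq_nonneg (7 - 7 * P - 1 * Q), sq_nonneg (P - 6), sq_nonneg Q]

private theorem yA_7_2 (P Q : ℝ) (hP : 0 ≤ P) (hQ : 0 ≤ Q) (hP1 : P ≤ 6) (hs : 56 ≤ (P + Q) * 31) :
    0 < (25 * (P ^ 2 + Q ^ 2) + (7 - 7 * P - 2 * Q) ^ 2) * (13 - P) - 25 * (2 * P * (7 + (P + Q))) := by
  nlinarith [mul_nonneg hP hQ, mul_nonneg hP (sub_nonneg.2 hP1), mul_nonneg hQ (sub_nonneg.2 hP1),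
    mul_nonneg hP (sub_nonneg.2 hs), mul_nonneg hQ (sub_nonneg.2 hs),
    mul_nonneg (sub_nonneg.2 hP1) (sub_nonneg.2 hs), mul_nonneg (sub_nonneg.2 hP1) (sq_nonneg (P - Q)),
    mul_nonneg (sub_nonneg.2 hP1) (sq_nonneg (7 - 7 * P - 2 * Q)), sq_nonneg (P - Q),
    sq_nonneg (7 - 7 * P - 2 * Q)]

private theorem yB_7_2 (P Q : ℝ) (hQ : 0 ≤ Q) (hP1 : 6 ≤ P) (hs : 56 ≤ (P + Q) * 31) :
    0 < (25 * (P ^ 2 + Q ^ 2) + (7 - 7 * P - 2 * Q) ^ 2) * 7 - 25 * (2 * P * (7 + (P + Q))) := by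
  nlinarith [mul_nonneg hQ (sub_nonneg.2 hP1), mul_nonneg hQ (sub_nonneg.2 hs),
    mul_nonneg (sub_nonneg.2 hP1) (sub_nonneg.2 hs), sq_nonneg (P - Q),
    sq_nonneg (7 - 7 * P - 2 * Q), sq_nonneg (P - 6), sq_nonneg Q]

private theorem yA_7_3 (P Q : ℝ) (hP : 0 ≤ P) (hQ : 0 ≤ Q) (hP1 : P ≤ 6) (hs : 42 ≤ (P + Q) * 26) :
    0 < (16 * (P ^ 2 + Q ^ 2) + (7 - 7 * P - 3 * Q) ^ 2) * (13 - P) - 16 * (2 * P * (7 + (P + Q))) := by
  nlinarith [mul_nonneg hP hQ, mul_nonneg hP (sub_nonneg.2 hP1), mul_nonneg hQ (sub_nonneg.2 hP1),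
    mul_nonneg hP (sub_nonneg.2 hs), mul_nonneg hQ (sub_nonneg.2 hs),
    mul_nonneg (sub_nonneg.2 hP1) (sub_nonneg.2 hs), mul_nonneg (sub_nonneg.2 hP1) (sq_nonneg (P - Q)),
    mul_nonneg (sub_nonneg.2 hP1) (sq_nonneg (7 - 7 * P - 3 * Q)), sq_nonneg (P - Q),
    sq_nonneg (7 - 7 * P - 3 * Q)]

private theorem yB_7_3 (P Q : ℝ) (hQ : 0 ≤ Q) (hP1 : 6 ≤ P) (hs : 42 ≤ (P + Q) * 26) :
    0 < (16 * (P ^ 2 + Q ^ 2) + (7 - 7 * P - 3 * Q) ^ 2) * 7 - 16 * (2 * P * (7 + (P + Q))) := by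
  nlinarith [mul_nonneg hQ (sub_nonneg.2 hP1), mul_nonneg hQ (sub_nonneg.2 hs),
    mul_nonneg (sub_nonneg.2 hP1) (sub_nonneg.2 hs), sq_nonneg (P - Q),
    sq_nonneg (7 - 7 * P - 3 * Q), sq_nonneg (P - 6), sq_nonneg Q]

private theorem yA_7_4 (P Q : ℝ) (hP : 0 ≤ P) (hQ : 0 ≤ Q) (hP1 : P ≤ 6) (hs : 28 ≤ (P + Q) * 19) :
    0 < (9 * (P ^ 2 + Q ^ 2) + (7 - 7 * P - 4 * Q) ^ 2) * (13 - P) - 9 * (2 * P * (7 + (P + Q))) := by
  nlinarith [mul_nonneg hP hQ, mul_nonneg hP (sub_nonneg.2 hP1), mul_nonneg hQ (sub_nonneg.2 hP1),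
    mul_nonneg hP (sub_nonneg.2 hs), mul_nonneg hQ (sub_nonneg.2 hs),
    mul_nonneg (sub_nonneg.2 hP1) (sub_nonneg.2 hs), mul_nonneg (sub_nonneg.2 hP1) (sq_nonneg (P - Q)),
    mul_nonneg (sub_nonneg.2 hP1) (sq_nonneg (7 - 7 * P - 4 * Q)), sq_nonneg (P - Q),
    sq_nonneg (7 - 7 * P - 4 * Q)]

private theorem yB_7_4 (P Q : ℝ) (hQ : 0 ≤ Q) (hP1 : 6 ≤ P) (hs : 28 ≤ (P + Q) * 19) :
    0 < (9 * (P ^ 2 + Q ^ 2) + (7 - 7 * P - 4 * Q) ^ 2) * 7 - 9 * (2 * P * (7 + (P + Q))) := by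
  nlinarith [mul_nonneg hQ (sub_nonneg.2 hP1), mul_nonneg hQ (sub_nonneg.2 hs),
    mul_nonneg (sub_nonneg.2 hP1) (sub_nonneg.2 hs), sq_nonneg (P - Q),
    sq_nonneg (7 - 7 * P - 4 * Q), sq_nonneg (P - 6), sq_nonneg Q]

private theorem yA_7_5 (P Q : ℝ) (hP : 0 ≤ P) (hQ : 0 ≤ Q) (hP1 : P ≤ 6) (hs : 14 ≤ (P + Q) * 10) :
    0 < (4 * (P ^ 2 + Q ^ 2) + (7 - 7 * P - 5 * Q) ^ 2) * (13 - P) - 4 * (2 * P * (7 + (P + Q))) := by
  nlinarith [mul_nonneg hP hQ, mul_nonneg hP (sub_nonneg.2 hP1), mul_nonneg hQ (sub_nonneg.2 hP1),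
    mul_nonneg hP (sub_nonneg.2 hs), mul_nonneg hQ (sub_nonneg.2 hs),
    mul_nonneg (sub_nonneg.2 hP1) (sub_nonneg.2 hs), mul_nonneg (sub_nonneg.2 hP1) (sq_nonneg (P - Q)),
    mul_nonneg (sub_nonneg.2 hP1) (sq_nonneg (7 - 7 * P - 5 * Q)), sq_nonneg (P - Q),
    sq_nonneg (7 - 7 * P - 5 * Q)]

private theorem yB_7_5 (P Q : ℝ) (hQ : 0 ≤ Q) (hP1 : 6 ≤ P) (hs : 14 ≤ (P + Q) * 10) :
    0 < (4 * (P ^ 2 + Q ^ 2) + (7 - 7 * P - 5 * Q) ^ 2) * 7 - 4 * (2 * P * (7 + (P + Q))) := by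
  nlinarith [mul_nonneg hQ (sub_nonneg.2 hP1), mul_nonneg hQ (sub_nonneg.2 hs),
    mul_nonneg (sub_nonneg.2 hP1) (sub_nonneg.2 hs), sq_nonneg (P - Q),
    sq_nonneg (7 - 7 * P - 5 * Q), sq_nonneg (P - 6), sq_nonneg Q]

private theorem y_use {C M G S f R : ℝ} (hC : 0 < C) (hM : 0 ≤ M) (hf : G ≤ C * (f - S)) (h : f * M ≤ R)
    (hpos : 0 < (C * S + G) * M - C * R) : False := by
  have h1 : (C * S + G) * M ≤ (C * f) * M := mul_le_mul_of_nonneg_right (by linarith) hM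
  have h2 : C * (f * M) ≤ C * R := mul_le_mul_of_nonneg_left h hC.le
  linarith

theorem polyY (r m : ℕ) (hr : 3 ≤ r) (hr7 : r ≤ 7) (hm : m + 2 ≤ r) (P Q f κ : ℝ) (hP : 0 ≤ P) (hQ : 0 ≤ Q)
    (h1 : f * (2 * r - κ) ≤ 2 * P * (r + (P + Q))) (h2 : κ ≤ r) (h3 : κ ≤ 1 + P)
    (hs : 2 * (r : ℝ) * (r - 1 - m) ≤ (P + Q) * (r * (r - 2) - m ^ 2))
    (C : ℝ) (hC : 0 < C) (hCm : C ≤ ((r : ℝ) - m) ^ 2) (hC5 : r = 3 → m = 0 → C ≤ 5)
    (hf : ((r : ℝ) - r * P - m * Q) ^ 2 ≤ C * (f - (P ^ 2 + Q ^ 2))) : False := by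
  have hf0 : 0 ≤ f - (P ^ 2 + Q ^ 2) := by
    have := (sq_nonneg ((r : ℝ) - r * P - m * Q)).trans hf
    exact nonneg_of_mul_nonneg_right this hC
  have hf1 : 0 ≤ f := by nlinarith [sq_nonneg P, sq_nonneg Q]
  have key : ∀ K : ℝ, C ≤ K → ((r : ℝ) - r * P - m * Q) ^ 2 ≤ K * (f - (P ^ 2 + Q ^ 2)) := fun K hK =>
    hf.trans (mul_le_mul_of_nonneg_right hK hf0)
  rcases le_total P ((r : ℝ) - 1) with hP1 | hP1
  · have h4 : f * (2 * r - 1 - P) ≤ 2 * P * (r + (P + Q)) := by nlinarith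
    clear h1 h2 h3 hf
    interval_cases r
    · have hm2 : m ≤ 1 := by omega
      interval_cases m
      · refine y_use (C := 5) (M := 5 - P) (by norm_num) (by norm_num at hP1; linarith) (key 5 (hC5 rfl rfl)) (R := 2 * P * (3 + (P + Q))) ?_ ?_
        · push_cast at h4; linarith
        · have h5 := yA_3_0 P Q hP hQ (by norm_num at hP1; linarith) (by norm_num at hs; linarith)
          push_cast
          linarith
      · refine y_use (C := 4) (M := 5 - P) (by norm_num) (by norm_num at hP1; linarith) (key 4 (hCm.trans (by norm_num))) (R := 2 * P * (3 + (P + Q))) ?_ ?_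
        · push_cast at h4; linarith
        · have h5 := yA_3_1 P Q hP hQ (by norm_num at hP1; linarith) (by norm_num at hs; linarith)
          push_cast
          linarith
    · have hm2 : m ≤ 2 := by omega
      interval_cases m
      · refine y_use (C := 16) (M := 7 - P) (by norm_num) (by norm_num at hP1; linarith) (key 16 (hCm.trans (by norm_num))) (R := 2 * P * (4 + (P + Q))) ?_ ?_
        · push_cast at h4; linarith
        · have h5 := yA_4_0 P Q hP hQ (by norm_num at hP1; linarith) (by norm_num at hs; linarith)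
          push_cast
          linarith
      · refine y_use (C := 9) (M := 7 - P) (by norm_num) (by norm_num at hP1; linarith) (key 9 (hCm.trans (by norm_num))) (R := 2 * P * (4 + (P + Q))) ?_ ?_
        · push_cast at h4; linarith
        · have h5 := yA_4_1 P Q hP hQ (by norm_num at hP1; linarith) (by norm_num at hs; linarith)
          push_cast
          linarith
      · refine y_use (C := 4) (M := 7 - P) (by norm_num) (by norm_num at hP1; linarith) (key 4 (hCm.trans (by norm_num))) (R := 2 * P * (4 + (P + Q))) ?_ ?_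
        · push_cast at h4; linarith
        · have h5 := yA_4_2 P Q hP hQ (by norm_num at hP1; linarith) (by norm_num at hs; linarith)
          push_cast
          linarith
    · have hm2 : m ≤ 3 := by omega
      interval_cases m
      · refine y_use (C := 25) (M := 9 - P) (by norm_num) (by norm_num at hP1; linarith) (key 25 (hCm.trans (by norm_num))) (R := 2 * P * (5 + (P + Q))) ?_ ?_
        · push_cast at h4; linarith
        · have h5 := yA_5_0 P Q hP hQ (by norm_num at hP1; linarith) (by norm_num at hs; linarith)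
          push_cast
          linarith
      · refine y_use (C := 16) (M := 9 - P) (by norm_num) (by norm_num at hP1; linarith) (key 16 (hCm.trans (by norm_num))) (R := 2 * P * (5 + (P + Q))) ?_ ?_
        · push_cast at h4; linarith
        · have h5 := yA_5_1 P Q hP hQ (by norm_num at hP1; linarith) (by norm_num at hs; linarith)
          push_cast
          linarith
      · refine y_use (C := 9) (M := 9 - P) (by norm_num) (by norm_num at hP1; linarith) (key 9 (hCm.trans (by norm_num))) (R := 2 * P * (5 + (P + Q))) ?_ ?_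
        · push_cast at h4; linarith
        · have h5 := yA_5_2 P Q hP hQ (by norm_num at hP1; linarith) (by norm_num at hs; linarith)
          push_cast
          linarith
      · refine y_use (C := 4) (M := 9 - P) (by norm_num) (by norm_num at hP1; linarith) (key 4 (hCm.trans (by norm_num))) (R := 2 * P * (5 + (P + Q))) ?_ ?_
        · push_cast at h4; linarith
        · have h5 := yA_5_3 P Q hP hQ (by norm_num at hP1; linarith) (by norm_num at hs; linarith)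
          push_cast
          linarith
    · have hm2 : m ≤ 4 := by omega
      interval_cases m
      · refine y_use (C := 36) (M := 11 - P) (by norm_num) (by norm_num at hP1; linarith) (key 36 (hCm.trans (by norm_num))) (R := 2 * P * (6 + (P + Q))) ?_ ?_
        · push_cast at h4; linarith
        · have h5 := yA_6_0 P Q hP hQ (by norm_num at hP1; linarith) (by norm_num at hs; linarith)
          push_cast
          linarith
      · refine y_use (C := 25) (M := 11 - P) (by norm_num) (by norm_num at hP1; linarith) (key 25 (hCm.trans (by norm_num))) (R := 2 * P * (6 + (P + Q))) ?_ ?_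
        · push_cast at h4; linarith
        · have h5 := yA_6_1 P Q hP hQ (by norm_num at hP1; linarith) (by norm_num at hs; linarith)
          push_cast
          linarith
      · refine y_use (C := 16) (M := 11 - P) (by norm_num) (by norm_num at hP1; linarith) (key 16 (hCm.trans (by norm_num))) (R := 2 * P * (6 + (P + Q))) ?_ ?_
        · push_cast at h4; linarith
        · have h5 := yA_6_2 P Q hP hQ (by norm_num at hP1; linarith) (by norm_num at hs; linarith)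
          push_cast
          linarith
      · refine y_use (C := 9) (M := 11 - P) (by norm_num) (by norm_num at hP1; linarith) (key 9 (hCm.trans (by norm_num))) (R := 2 * P * (6 + (P + Q))) ?_ ?_
        · push_cast at h4; linarith
        · have h5 := yA_6_3 P Q hP hQ (by norm_num at hP1; linarith) (by norm_num at hs; linarith)
          push_cast
          linarith
      · refine y_use (C := 4) (M := 11 - P) (by norm_num) (by norm_num at hP1; linarith) (key 4 (hCm.trans (by norm_num))) (R := 2 * P * (6 + (P + Q))) ?_ ?_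
        · push_cast at h4; linarith
        · have h5 := yA_6_4 P Q hP hQ (by norm_num at hP1; linarith) (by norm_num at hs; linarith)
          push_cast
          linarith
    · have hm2 : m ≤ 5 := by omega
      interval_cases m
      · refine y_use (C := 49) (M := 13 - P) (by norm_num) (by norm_num at hP1; linarith) (key 49 (hCm.trans (by norm_num))) (R := 2 * P * (7 + (P + Q))) ?_ ?_
        · push_cast at h4; linarith
        · have h5 := yA_7_0 P Q hP hQ (by norm_num at hP1; linarith) (by norm_num at hs; linarith)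
          push_cast
          linarith
      · refine y_use (C := 36) (M := 13 - P) (by norm_num) (by norm_num at hP1; linarith) (key 36 (hCm.trans (by norm_num))) (R := 2 * P * (7 + (P + Q))) ?_ ?_
        · push_cast at h4; linarith
        · have h5 := yA_7_1 P Q hP hQ (by norm_num at hP1; linarith) (by norm_num at hs; linarith)
          push_cast
          linarith
      · refine y_use (C := 25) (M := 13 - P) (by norm_num) (by norm_num at hP1; linarith) (key 25 (hCm.trans (by norm_num))) (R := 2 * P * (7 + (P + Q))) ?_ ?_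
        · push_cast at h4; linarith
        · have h5 := yA_7_2 P Q hP hQ (by norm_num at hP1; linarith) (by norm_num at hs; linarith)
          push_cast
          linarith
      · refine y_use (C := 16) (M := 13 - P) (by norm_num) (by norm_num at hP1; linarith) (key 16 (hCm.trans (by norm_num))) (R := 2 * P * (7 + (P + Q))) ?_ ?_
        · push_cast at h4; linarith
        · have h5 := yA_7_3 P Q hP hQ (by norm_num at hP1; linarith) (by norm_num at hs; linarith)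
          push_cast
          linarith
      · refine y_use (C := 9) (M := 13 - P) (by norm_num) (by norm_num at hP1; linarith) (key 9 (hCm.trans (by norm_num))) (R := 2 * P * (7 + (P + Q))) ?_ ?_
        · push_cast at h4; linarith
        · have h5 := yA_7_4 P Q hP hQ (by norm_num at hP1; linarith) (by norm_num at hs; linarith)
          push_cast
          linarith
      · refine y_use (C := 4) (M := 13 - P) (by norm_num) (by norm_num at hP1; linarith) (key 4 (hCm.trans (by norm_num))) (R := 2 * P * (7 + (P + Q))) ?_ ?_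
        · push_cast at h4; linarith
        · have h5 := yA_7_5 P Q hP hQ (by norm_num at hP1; linarith) (by norm_num at hs; linarith)
          push_cast
          linarith
  · have h4 : f * r ≤ 2 * P * (r + (P + Q)) := by nlinarith
    clear h1 h2 h3 hf
    interval_cases r
    · have hm2 : m ≤ 1 := by omega
      interval_cases m
      · refine y_use (C := 5) (M := 3) (by norm_num) (by norm_num) (key 5 (hC5 rfl rfl)) (R := 2 * P * (3 + (P + Q))) ?_ ?_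
        · push_cast at h4; linarith
        · have h5 := yB_3_0 P Q hQ (by norm_num at hP1; linarith) (by norm_num at hs; linarith)
          push_cast
          linarith
      · refine y_use (C := 4) (M := 3) (by norm_num) (by norm_num) (key 4 (hCm.trans (by norm_num))) (R := 2 * P * (3 + (P + Q))) ?_ ?_
        · push_cast at h4; linarith
        · have h5 := yB_3_1 P Q hQ (by norm_num at hP1; linarith) (by norm_num at hs; linarith)
          push_cast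
          linarith
    · have hm2 : m ≤ 2 := by omega
      interval_cases m
      · refine y_use (C := 16) (M := 4) (by norm_num) (by norm_num) (key 16 (hCm.trans (by norm_num))) (R := 2 * P * (4 + (P + Q))) ?_ ?_
        · push_cast at h4; linarith
        · have h5 := yB_4_0 P Q hQ (by norm_num at hP1; linarith) (by norm_num at hs; linarith)
          push_cast
          linarith
      · refine y_use (C := 9) (M := 4) (by norm_num) (by norm_num) (key 9 (hCm.trans (by norm_num))) (R := 2 * P * (4 + (P + Q))) ?_ ?_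
        · push_cast at h4; linarith
        · have h5 := yB_4_1 P Q hQ (by norm_num at hP1; linarith) (by norm_num at hs; linarith)
          push_cast
          linarith
      · refine y_use (C := 4) (M := 4) (by norm_num) (by norm_num) (key 4 (hCm.trans (by norm_num))) (R := 2 * P * (4 + (P + Q))) ?_ ?_
        · push_cast at h4; linarith
        · have h5 := yB_4_2 P Q hQ (by norm_num at hP1; linarith) (by norm_num at hs; linarith)
          push_cast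
          linarith
    · have hm2 : m ≤ 3 := by omega
      interval_cases m
      · refine y_use (C := 25) (M := 5) (by norm_num) (by norm_num) (key 25 (hCm.trans (by norm_num))) (R := 2 * P * (5 + (P + Q))) ?_ ?_
        · push_cast at h4; linarith
        · have h5 := yB_5_0 P Q hQ (by norm_num at hP1; linarith) (by norm_num at hs; linarith)
          push_cast
          linarith
      · refine y_use (C := 16) (M := 5) (by norm_num) (by norm_num) (key 16 (hCm.trans (by norm_num))) (R := 2 * P * (5 + (P + Q))) ?_ ?_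
        · push_cast at h4; linarith
        · have h5 := yB_5_1 P Q hQ (by norm_num at hP1; linarith) (by norm_num at hs; linarith)
          push_cast
          linarith
      · refine y_use (C := 9) (M := 5) (by norm_num) (by norm_num) (key 9 (hCm.trans (by norm_num))) (R := 2 * P * (5 + (P + Q))) ?_ ?_
        · push_cast at h4; linarith
        · have h5 := yB_5_2 P Q hQ (by norm_num at hP1; linarith) (by norm_num at hs; linarith)
          push_cast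
          linarith
      · refine y_use (C := 4) (M := 5) (by norm_num) (by norm_num) (key 4 (hCm.trans (by norm_num))) (R := 2 * P * (5 + (P + Q))) ?_ ?_
        · push_cast at h4; linarith
        · have h5 := yB_5_3 P Q hQ (by norm_num at hP1; linarith) (by norm_num at hs; linarith)
          push_cast
          linarith
    · have hm2 : m ≤ 4 := by omega
      interval_cases m
      · refine y_use (C := 36) (M := 6) (by norm_num) (by norm_num) (key 36 (hCm.trans (by norm_num))) (R := 2 * P * (6 + (P + Q))) ?_ ?_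
        · push_cast at h4; linarith
        · have h5 := yB_6_0 P Q hQ (by norm_num at hP1; linarith) (by norm_num at hs; linarith)
          push_cast
          linarith
      · refine y_use (C := 25) (M := 6) (by norm_num) (by norm_num) (key 25 (hCm.trans (by norm_num))) (R := 2 * P * (6 + (P + Q))) ?_ ?_
        · push_cast at h4; linarith
        · have h5 := yB_6_1 P Q hQ (by norm_num at hP1; linarith) (by norm_num at hs; linarith)
          push_cast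
          linarith
      · refine y_use (C := 16) (M := 6) (by norm_num) (by norm_num) (key 16 (hCm.trans (by norm_num))) (R := 2 * P * (6 + (P + Q))) ?_ ?_
        · push_cast at h4; linarith
        · have h5 := yB_6_2 P Q hQ (by norm_num at hP1; linarith) (by norm_num at hs; linarith)
          push_cast
          linarith
      · refine y_use (C := 9) (M := 6) (by norm_num) (by norm_num) (key 9 (hCm.trans (by norm_num))) (R := 2 * P * (6 + (P + Q))) ?_ ?_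
        · push_cast at h4; linarith
        · have h5 := yB_6_3 P Q hQ (by norm_num at hP1; linarith) (by norm_num at hs; linarith)
          push_cast
          linarith
      · refine y_use (C := 4) (M := 6) (by norm_num) (by norm_num) (key 4 (hCm.trans (by norm_num))) (R := 2 * P * (6 + (P + Q))) ?_ ?_
        · push_cast at h4; linarith
        · have h5 := yB_6_4 P Q hQ (by norm_num at hP1; linarith) (by norm_num at hs; linarith)
          push_cast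
          linarith
    · have hm2 : m ≤ 5 := by omega
      interval_cases m
      · refine y_use (C := 49) (M := 7) (by norm_num) (by norm_num) (key 49 (hCm.trans (by norm_num))) (R := 2 * P * (7 + (P + Q))) ?_ ?_
        · push_cast at h4; linarith
        · have h5 := yB_7_0 P Q hQ (by norm_num at hP1; linarith) (by norm_num at hs; linarith)
          push_cast
          linarith
      · refine y_use (C := 36) (M := 7) (by norm_num) (by norm_num) (key 36 (hCm.trans (by norm_num))) (R := 2 * P * (7 + (P + Q))) ?_ ?_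
        · push_cast at h4; linarith
        · have h5 := yB_7_1 P Q hQ (by norm_num at hP1; linarith) (by norm_num at hs; linarith)
          push_cast
          linarith
      · refine y_use (C := 25) (M := 7) (by norm_num) (by norm_num) (key 25 (hCm.trans (by norm_num))) (R := 2 * P * (7 + (P + Q))) ?_ ?_
        · push_cast at h4; linarith
        · have h5 := yB_7_2 P Q hQ (by norm_num at hP1; linarith) (by norm_num at hs; linarith)
          push_cast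
          linarith
      · refine y_use (C := 16) (M := 7) (by norm_num) (by norm_num) (key 16 (hCm.trans (by norm_num))) (R := 2 * P * (7 + (P + Q))) ?_ ?_
        · push_cast at h4; linarith
        · have h5 := yB_7_3 P Q hQ (by norm_num at hP1; linarith) (by norm_num at hs; linarith)
          push_cast
          linarith
      · refine y_use (C := 9) (M := 7) (by norm_num) (by norm_num) (key 9 (hCm.trans (by norm_num))) (R := 2 * P * (7 + (P + Q))) ?_ ?_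
        · push_cast at h4; linarith
        · have h5 := yB_7_4 P Q hQ (by norm_num at hP1; linarith) (by norm_num at hs; linarith)
          push_cast
          linarith
      · refine y_use (C := 4) (M := 7) (by norm_num) (by norm_num) (key 4 (hCm.trans (by norm_num))) (R := 2 * P * (7 + (P + Q))) ?_ ?_
        · push_cast at h4; linarith
        · have h5 := yB_7_5 P Q hQ (by norm_num at hP1; linarith) (by norm_num at hs; linarith)
          push_cast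
          linarith

end Pool.Agent.K2
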