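import Pool.Agent.Lib.MP_a7e07e_co.K2.GeoY
import Pool.Agent.Lib.MP_a7e07e_co.K2.PolyX
import Pool.Agent.Lib.MP_a7e07e_co.K2.PolyY

set_option autoImplicit false

/-!
An optimal design with block size two is binary.
-/

namespace Pool.Agent.K2

open Matrix Pool.Agent.BDesign

variable {T B : Type} [Fintype T] [DecidableEq T] [Fintype B] [DecidableEq B]

theorem core2 (N : T → B → ℕ) (r : ℕ) (H : Matrix T T ℝ) (hr : 0 < r) (hv : 2 ≤ Fintype.card T)
    (ho : Opt N r 2 H) (i : T) (j : B) : N i j ≤ 1 := by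
  by_contra hcon
  push Not at hcon
  have hP := isP_of_opt N r H hr (by omega) ho
  set P : Matrix T T ℝ := (1 / (2 * (r : ℝ))) • H with hPdef
  have h0 : 2 ≤ N i j := hcon
  -- the maximiser
  obtain ⟨h, -, hmax'⟩ := Finset.exists_max_image (Finset.univ : Finset T)
    (fun y => qf (P * P) (ev i y) (ev i y)) ⟨i, Finset.mem_univ i⟩
  have hmax : ∀ y, qf (P * P) (ev i y) (ev i y) ≤ qf (P * P) (ev i h) (ev i h) :=
    fun y => hmax' y (Finset.mem_univ y)
  have hih : i ≠ h := by
    intro hih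
    obtain ⟨y, hy⟩ := Fintype.exists_ne_of_one_lt_card (by omega : 1 < Fintype.card T) i
    have h1 := F_pos hP i y hy.symm
    have h2 := hmax y
    rw [← hih, ev_self] at h2
    have h3 : qf (P * P) (0 : T → ℝ) 0 = 0 := by simp [qf]
    linarith
  have hbin : ∀ y, y ≠ i → ∀ l, N y l ≤ 1 := by
    intro y hy l
    by_contra hc
    push Not at hc
    exact one_loop hP i y hy.symm j l h0 hc
  have hl1 : ∀ y, y ≠ i → lam N y y = r := fun y hy => lam_self hP.des y (hbin y hy)
  have hlu := lam_loop hP.des i j h0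
  obtain ⟨hI, hk1, hk2, hp, hq⟩ := main_ineq hP i h hih j h0 (hbin h hih.symm) hmax
  have hpq := geo_pq hP i h hih
  have hhh : lam N h h = r := hl1 h hih.symm
  have hv' : (2 : ℝ) ≤ Fintype.card T := by exact_mod_cast hv
  -- `r ≥ 3`
  have hr3 : 3 ≤ r := by
    have e1 := diag_ge hP i
    have e2 : 0 < 1 - 1 / (Fintype.card T : ℝ) := by
      have : 1 / (Fintype.card T : ℝ) ≤ 1 / 2 := one_div_le_one_div_of_le (by norm_num) hv'
      linarith
    have e3 : 0 < P i i * (2 * r - lam N i i) := lt_of_lt_of_le (by positivity) e1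
    have e4 : 0 < 2 * (r : ℝ) - lam N i i := by
      by_contra hc
      push Not at hc
      exact absurd e3 (not_lt.2 (mul_nonpos_of_nonneg_of_nonpos (psd_diag P hP.psd i) hc))
    have e5 : (2 : ℝ) < r := by linarith
    have e6 : 2 < r := by exact_mod_cast e5
    omega
  have hr3' : (3 : ℝ) ≤ r := by exact_mod_cast hr3
  -- `m ≤ r - 2`
  have hm : lam N i h ≤ r - 2 := by
    have e1 : lam N i h ≤ ∑ l ∈ Finset.univ.erase i, lam N i l :=
      Finset.single_le_sum (f := fun l => lam N i l) (fun l _ => lam_nonneg N i l)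
        (Finset.mem_erase.2 ⟨hih.symm, Finset.mem_univ h⟩)
    rw [lam_erase hP.des i] at e1
    linarith
  set p := -(P *ᵥ ev i h) h with hpdef
  set q := (P *ᵥ ev i h) i with hqdef
  set F := qf (P * P) (ev i h) (ev i h) with hF
  rcases Nat.lt_or_ge r 8 with hr8 | hr8
  · -- `r ≤ 7`
    set m : ℕ := ∑ l, N i l * N h l with hmdef
    have hmc : lam N i h = (m : ℝ) := lam_cast N i h
    have hmr : m + 2 ≤ r := by
      rw [hmc] at hm
      have : (m : ℝ) + 2 ≤ r := by linarith
      exact_mod_cast this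
    have hmr' : (m : ℝ) + 2 ≤ r := by exact_mod_cast hmr
    have hA := geo_A hP i h hih hhh hlu hm
    have hY := geo_Y hP i h hih hhh
    rw [hmc, ← hpdef, ← hqdef] at hA
    rw [hmc, ← hpdef, ← hqdef, ← hF] at hY
    have hr0 : (0 : ℝ) ≤ r := by linarith
    have hS0 : 0 ≤ F - (p ^ 2 + q ^ 2) := by linarith [hpq.1]
    have key : ∀ C : ℝ, (∑ l ∈ (Finset.univ.erase h).erase i, lam N h l ^ 2) ≤ C →
        ((r : ℝ) - r * (r * p) - m * (r * q)) ^ 2 ≤ C * (r ^ 2 * F - ((r * p) ^ 2 + (r * q) ^ 2)) := by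
      intro C hC
      have e1 := hY.trans (mul_le_mul_of_nonneg_right hC hS0)
      have e2 := mul_le_mul_of_nonneg_left e1 (sq_nonneg (r : ℝ))
      calc ((r : ℝ) - r * (r * p) - m * (r * q)) ^ 2 = (r : ℝ) ^ 2 * (1 - r * p - m * q) ^ 2 := by ring
        _ ≤ (r : ℝ) ^ 2 * (C * (F - (p ^ 2 + q ^ 2))) := e2
        _ = _ := by ring
    have hI' : (r : ℝ) ^ 2 * F * (2 * r - kap N P h) ≤ 2 * (r * p) * (r + (r * p + r * q)) := by
      have e := mul_le_mul_of_nonneg_left hI (sq_nonneg (r : ℝ))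
      calc (r : ℝ) ^ 2 * F * (2 * r - kap N P h) = (r : ℝ) ^ 2 * (F * (2 * r - kap N P h)) := by ring
        _ ≤ (r : ℝ) ^ 2 * (2 * p * (1 + (p + q))) := e
        _ = _ := by ring
    have hA' : 2 * (r : ℝ) * (r - 1 - m) ≤ (r * p + r * q) * (r * (r - 2) - (m : ℝ) ^ 2) := by
      have e := mul_le_mul_of_nonneg_left hA hr0
      calc 2 * (r : ℝ) * (r - 1 - m) = r * (2 * (r - 1 - m)) := by ring
        _ ≤ r * ((p + q) * (r * (r - 2) - (m : ℝ) ^ 2)) := e
        _ = _ := by ring
    by_cases h3 : r = 3 ∧ m = 0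
    · obtain ⟨h3r, h3m⟩ := h3
      have e5 : (∑ l ∈ (Finset.univ.erase h).erase i, lam N h l ^ 2) ≤ 5 := by
        have hP3 : IsP N 3 P := by rw [← h3r]; exact hP
        refine rest_three hP3 i h hih (fun y hy => ?_) ?_
        · rw [hl1 y hy, h3r]; norm_num
        · rw [hmc, h3m]; norm_num
      refine polyY r m hr3 (by omega) hmr (r * p) (r * q) (r ^ 2 * F) (kap N P h) (mul_nonneg hr0 hp)
        (mul_nonneg hr0 hq) hI' hk1 (by linarith) hA' 5 (by norm_num) ?_ (fun _ _ => le_rfl) (key 5 e5)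
      rw [h3r, h3m]
      norm_num
    · refine polyY r m hr3 (by omega) hmr (r * p) (r * q) (r ^ 2 * F) (kap N P h) (mul_nonneg hr0 hp)
        (mul_nonneg hr0 hq) hI' hk1 (by linarith) hA' (((r : ℝ) - m) ^ 2) ?_ le_rfl
        (fun a b => absurd ⟨a, b⟩ h3) (key _ ?_)
      · have : (0 : ℝ) < r - m := by linarith
        positivity
      · have := rest_sq hP.des i h hih hhh
        rw [hmc] at this
        exact this
  · -- `r ≥ 8`
    have hX := geo_X hP i h hih hr3 hl1 hlu hmax
    have hv3 : 3 ≤ Fintype.card T := by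
      have e1 := rest_sum hP.des i h hih hhh
      have e2 : ((Finset.univ.erase h).erase i).Nonempty := by
        rw [Finset.nonempty_iff_ne_empty]
        intro he
        rw [he, Finset.sum_empty] at e1
        linarith
      have e3 := Finset.card_pos.2 e2
      rw [Finset.card_erase_of_mem (Finset.mem_erase.2 ⟨hih, Finset.mem_univ i⟩),
        Finset.card_erase_of_mem (Finset.mem_univ h), Finset.card_univ] at e3
      omega
    refine polyX r (1 - 1 / (Fintype.card T : ℝ)) (kap N P h) p q F (by exact_mod_cast hr8) ?_ hp hI hk1 hk2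
      hpq.1 hpq.2 hX
    rcases Nat.eq_or_lt_of_le hv3 with h4 | h4
    · left
      rw [← h4]
      norm_num
    · right
      have h5 : (4 : ℝ) ≤ Fintype.card T := by exact_mod_cast h4
      have h6 : 1 / (Fintype.card T : ℝ) ≤ 1 / 4 := one_div_le_one_div_of_le (by norm_num) h5
      have h7 : 0 ≤ 1 / (Fintype.card T : ℝ) := by positivity
      constructor <;> linarith

end Pool.Agent.K2
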