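import Pool.Agent.Lib.MP_a7e07e_co.K2.Ineq

set_option autoImplicit false

/-!
Lower bounds for `F = |P (e_u - e_h)|²`.
-/

namespace Pool.Agent.K2

open Matrix Pool.Agent.BDesign

variable {T B : Type} [Fintype T] [DecidableEq T] [Fintype B] [DecidableEq B]
variable {N : T → B → ℕ} {r : ℕ} {P : Matrix T T ℝ}

/-- a coordinate of a vector with sum zero -/
theorem coord_sq (f : T → ℝ) (hf : ∑ t, f t = 0) (y : T) :
    (Fintype.card T : ℝ) * f y ^ 2 ≤ ((Fintype.card T : ℝ) - 1) * ∑ t, f t ^ 2 := by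
  have e1 : f y + ∑ t ∈ Finset.univ.erase y, f t = 0 := by
    rw [← hf]
    exact Finset.add_sum_erase Finset.univ f (Finset.mem_univ y)
  have e2 : f y ^ 2 + ∑ t ∈ Finset.univ.erase y, f t ^ 2 = ∑ t, f t ^ 2 :=
    Finset.add_sum_erase Finset.univ (fun t => f t ^ 2) (Finset.mem_univ y)
  have e3 := sq_sum_le_card_mul_sum_sq (s := Finset.univ.erase y) (f := f)
  have hc : 1 ≤ Fintype.card T := Fintype.card_pos_iff.2 ⟨y⟩
  rw [Finset.card_erase_of_mem (Finset.mem_univ y), Finset.card_univ, Nat.cast_sub hc, Nat.cast_one] at e3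
  have e4 : ∑ t ∈ Finset.univ.erase y, f t = - f y := by linarith
  rw [e4] at e3
  rw [← e2]
  nlinarith

/-- the two special coordinates -/
theorem two_coord (f : T → ℝ) (u h : T) (huh : u ≠ h) :
    f h ^ 2 + (f u ^ 2 + ∑ t ∈ (Finset.univ.erase h).erase u, f t ^ 2) = ∑ t, f t ^ 2 := by
  have a1 : f u ^ 2 + ∑ t ∈ (Finset.univ.erase h).erase u, f t ^ 2 = ∑ t ∈ Finset.univ.erase h, f t ^ 2 :=
    Finset.add_sum_erase (Finset.univ.erase h) (fun t => f t ^ 2)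
      (Finset.mem_erase.2 ⟨huh, Finset.mem_univ u⟩)
  have a2 : f h ^ 2 + ∑ t ∈ Finset.univ.erase h, f t ^ 2 = ∑ t, f t ^ 2 :=
    Finset.add_sum_erase Finset.univ (fun t => f t ^ 2) (Finset.mem_univ h)
  rw [a1, a2]

theorem F_eq (hP : IsP N r P) (x : T → ℝ) : qf (P * P) x x = ∑ t, (P *ᵥ x) t ^ 2 := by
  rw [qf_sq hP]
  simp only [dotProduct]
  exact Finset.sum_congr rfl fun t _ => (sq _).symm

/-- `p² + q² ≤ F` and `p² ≤ w F` -/
theorem geo_pq (hP : IsP N r P) (u h : T) (huh : u ≠ h) :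
    (-(P *ᵥ ev u h) h) ^ 2 + ((P *ᵥ ev u h) u) ^ 2 ≤ qf (P * P) (ev u h) (ev u h) ∧
    (-(P *ᵥ ev u h) h) ^ 2 ≤ (1 - 1 / (Fintype.card T : ℝ)) * qf (P * P) (ev u h) (ev u h) := by
  have hc : 0 < Fintype.card T := Fintype.card_pos_iff.2 ⟨u⟩
  have hc' : (0 : ℝ) < Fintype.card T := by exact_mod_cast hc
  rw [F_eq hP]
  constructor
  · have h1 := two_coord (P *ᵥ ev u h) u h huh
    have h2 : 0 ≤ ∑ t ∈ (Finset.univ.erase h).erase u, (P *ᵥ ev u h) t ^ 2 :=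
      Finset.sum_nonneg fun t _ => sq_nonneg _
    rw [neg_sq]
    linarith
  · have h1 := coord_sq (P *ᵥ ev u h) (sum_P hP _) h
    rw [neg_sq]
    have h2 : (Fintype.card T : ℝ) * (P *ᵥ ev u h) h ^ 2 ≤ (Fintype.card T : ℝ) *
        ((1 - 1 / (Fintype.card T : ℝ)) * ∑ t, (P *ᵥ ev u h) t ^ 2) := by
      have e : (Fintype.card T : ℝ) * ((1 - 1 / (Fintype.card T : ℝ)) * ∑ t, (P *ᵥ ev u h) t ^ 2) =
        ((Fintype.card T : ℝ) - 1) * ∑ t, (P *ᵥ ev u h) t ^ 2 := by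
        field_simp
      rw [e]
      exact h1
    exact le_of_mul_le_mul_left h2 hc'

/-- `w² ≤ P_yy L_yy` -/
theorem diag_ge (hP : IsP N r P) (y : T) :
    (1 - 1 / (Fintype.card T : ℝ)) ^ 2 ≤ P y y * (2 * r - lam N y y) := by
  have h1 := psd_cs (Lp N r) (lap_symm N) (lap_psd N hP.des) (P *ᵥ Pi.single y 1) (Pi.single y 1)
  have e1 : qf (Lp N r) (P *ᵥ Pi.single y 1) (Pi.single y 1) = 1 - 1 / (Fintype.card T : ℝ) := by
    rw [qf_comm (Lp N r) (lap_symm N)]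
    unfold qf
    rw [Matrix.mulVec_mulVec, hP.left]
    simp [PiM]
  have e2 : qf (Lp N r) (P *ᵥ Pi.single y 1) (P *ᵥ Pi.single y 1) = P y y := by
    unfold qf
    rw [Matrix.mulVec_mulVec, hP.left]
    have : (P *ᵥ Pi.single y 1) ⬝ᵥ (PiM T *ᵥ Pi.single y 1) =
        (P *ᵥ Pi.single y 1) y - (∑ t, (P *ᵥ Pi.single y 1) t) * (1 / (Fintype.card T : ℝ)) := by
      simp only [dotProduct, Finset.sum_mul]
      have e3 : ∀ t, (PiM T *ᵥ Pi.single y 1) t = (if t = y then 1 else 0) - 1 / (Fintype.card T : ℝ) := by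
        intro t
        simp [PiM]
      simp only [e3, mul_sub, Finset.sum_sub_distrib, mul_ite, mul_one, mul_zero]
      rw [Finset.sum_ite_eq' Finset.univ y]
      simp
    rw [this, sum_P hP]
    simp
  have e3 : qf (Lp N r) (Pi.single y 1) (Pi.single y 1) = 2 * r - lam N y y := by
    unfold qf
    simp [Lp]
  rw [e1, e2, e3] at h1
  exact h1

theorem sq_row (hP : IsP N r P) (t : T) : ∑ s, (P * P) t s = 0 := by
  simp only [Matrix.mul_apply]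
  rw [Finset.sum_comm]
  refine Finset.sum_eq_zero fun u _ => ?_
  rw [← Finset.mul_sum, hP.row u, mul_zero]

theorem sq_diag (hP : IsP N r P) (y : T) :
    (Fintype.card T : ℝ) * P y y ^ 2 ≤ ((Fintype.card T : ℝ) - 1) * (P * P) y y := by
  have h1 := coord_sq (fun t => P y t) (hP.row y) y
  have e : (P * P) y y = ∑ t, P y t ^ 2 := by
    rw [Matrix.mul_apply]
    exact Finset.sum_congr rfl fun t _ => by rw [hP.symm t y, sq]
  rw [e]
  exact h1

/-- averaging over `y` -/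
theorem geo_avg (hP : IsP N r P) (u h : T)
    (hmax : ∀ y, qf (P * P) (ev u y) (ev u y) ≤ qf (P * P) (ev u h) (ev u h)) :
    (Fintype.card T : ℝ) * (P * P) u u + ∑ y, (P * P) y y ≤
      ((Fintype.card T : ℝ) - 1) * qf (P * P) (ev u h) (ev u h) := by
  have hc : 1 ≤ Fintype.card T := Fintype.card_pos_iff.2 ⟨u⟩
  have e1 : ∑ y, qf (P * P) (ev u y) (ev u y) = (Fintype.card T : ℝ) * (P * P) u u + ∑ y, (P * P) y y := by
    simp only [qf_ev (P * P) (sq_symm hP), Finset.sum_sub_distrib, Finset.sum_add_distrib,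
      Finset.sum_const, Finset.card_univ, nsmul_eq_mul]
    rw [← Finset.mul_sum, sq_row hP u]
    ring
  have e2 := Finset.add_sum_erase Finset.univ (fun y => qf (P * P) (ev u y) (ev u y)) (Finset.mem_univ u)
  have e3 : qf (P * P) (ev u u) (ev u u) = 0 := by
    rw [ev_self]; simp [qf]
  have e4 : ∑ y ∈ Finset.univ.erase u, qf (P * P) (ev u y) (ev u y) ≤
      ∑ _y ∈ Finset.univ.erase u, qf (P * P) (ev u h) (ev u h) :=
    Finset.sum_le_sum fun y _ => hmax y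
  rw [Finset.sum_const, Finset.card_erase_of_mem (Finset.mem_univ u), Finset.card_univ, nsmul_eq_mul,
    Nat.cast_sub hc, Nat.cast_one] at e4
  rw [← e1, ← e2, e3, zero_add]
  exact e4

/-- the bound used for `r ≥ 8` -/
theorem geo_X (hP : IsP N r P) (u h : T) (huh : u ≠ h) (hr : 3 ≤ r)
    (hl1 : ∀ y, y ≠ u → lam N y y = r) (hlu : (r : ℝ) + 2 ≤ lam N u u)
    (hmax : ∀ y, qf (P * P) (ev u y) (ev u y) ≤ qf (P * P) (ev u h) (ev u h)) :
    (1 - 1 / (Fintype.card T : ℝ)) ^ 2 * ((2 - (1 - 1 / (Fintype.card T : ℝ))) * (r : ℝ) ^ 2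
      + (1 - 1 / (Fintype.card T : ℝ)) * ((r : ℝ) - 2) ^ 2) ≤
      ((r : ℝ) - 2) ^ 2 * ((r : ℝ) ^ 2 * qf (P * P) (ev u h) (ev u h)) := by
  have hc2 : 2 ≤ Fintype.card T := by
    have : 1 < Fintype.card T := Fintype.one_lt_card_iff.2 ⟨u, h, huh⟩
    omega
  have hc' : (2 : ℝ) ≤ Fintype.card T := by exact_mod_cast hc2
  have hr' : (3 : ℝ) ≤ r := by exact_mod_cast hr
  set v : ℝ := (Fintype.card T : ℝ) with hv
  set w : ℝ := 1 - 1 / v with hw
  set F := qf (P * P) (ev u h) (ev u h) with hF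
  have hvw : v * w = v - 1 := by
    rw [hw]; field_simp
  have hw0 : 0 < w := by
    rw [hw]
    have : 1 / v ≤ 1 / 2 := one_div_le_one_div_of_le (by norm_num) hc'
    linarith
  have h1 := geo_avg hP u h hmax
  rw [← hv, ← hF] at h1
  have hPnn : ∀ y, 0 ≤ P y y := psd_diag P hP.psd
  -- the diagonal entries
  have h2 : ∀ y, y ≠ u → w ^ 4 ≤ (r : ℝ) ^ 2 * P y y ^ 2 := by
    intro y hy
    have e1 := diag_ge hP y
    rw [hl1 y hy, ← hv, ← hw] at e1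
    have e2 : (w ^ 2) ^ 2 ≤ (P y y * (2 * r - r)) ^ 2 := pow_le_pow_left₀ (sq_nonneg w) e1 2
    calc w ^ 4 = (w ^ 2) ^ 2 := by ring
      _ ≤ (P y y * (2 * r - r)) ^ 2 := e2
      _ = (r : ℝ) ^ 2 * P y y ^ 2 := by ring
  have h3 : w ^ 4 ≤ ((r : ℝ) - 2) ^ 2 * P u u ^ 2 := by
    have e1 := diag_ge hP u
    rw [← hv, ← hw] at e1
    have e1' : w ^ 2 ≤ P u u * (r - 2) := by
      have := mul_le_mul_of_nonneg_left (by linarith : 2 * (r : ℝ) - lam N u u ≤ r - 2) (hPnn u)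
      linarith
    have e2 : (w ^ 2) ^ 2 ≤ (P u u * (r - 2)) ^ 2 := pow_le_pow_left₀ (sq_nonneg w) e1' 2
    calc w ^ 4 = (w ^ 2) ^ 2 := by ring
      _ ≤ (P u u * (r - 2)) ^ 2 := e2
      _ = ((r : ℝ) - 2) ^ 2 * P u u ^ 2 := by ring
  have h4 : ∀ y, v * P y y ^ 2 ≤ (v - 1) * (P * P) y y := sq_diag hP
  have h4' : ∀ y, P y y ^ 2 ≤ w * (P * P) y y := by
    intro y
    have := h4 y
    rw [← hvw] at this
    have h5 : v * P y y ^ 2 ≤ v * (w * (P * P) y y) := by linarith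
    exact le_of_mul_le_mul_left h5 (by linarith)
  have hr2 : (0 : ℝ) < (r : ℝ) - 2 := by linarith
  have h5 : w ^ 3 ≤ ((r : ℝ) - 2) ^ 2 * (P * P) u u := by
    have e := mul_le_mul_of_nonneg_left (h4' u) (sq_nonneg ((r : ℝ) - 2))
    have e2 : w * w ^ 3 ≤ w * (((r : ℝ) - 2) ^ 2 * (P * P) u u) := by nlinarith
    exact le_of_mul_le_mul_left e2 hw0
  have h6 : ∀ y, y ≠ u → w ^ 3 ≤ (r : ℝ) ^ 2 * (P * P) y y := by
    intro y hy
    have e := mul_le_mul_of_nonneg_left (h4' y) (sq_nonneg (r : ℝ))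
    have e1 := h2 y hy
    have e2 : w * w ^ 3 ≤ w * ((r : ℝ) ^ 2 * (P * P) y y) := by nlinarith
    exact le_of_mul_le_mul_left e2 hw0
  have h7 : (v - 1) * w ^ 3 ≤ (r : ℝ) ^ 2 * ∑ y ∈ Finset.univ.erase u, (P * P) y y := by
    rw [Finset.mul_sum]
    have : ∑ _y ∈ Finset.univ.erase u, w ^ 3 ≤ ∑ y ∈ Finset.univ.erase u, (r : ℝ) ^ 2 * (P * P) y y :=
      Finset.sum_le_sum fun y hy => h6 y (Finset.mem_erase.1 hy).1
    rw [Finset.sum_const, Finset.card_erase_of_mem (Finset.mem_univ u), Finset.card_univ, nsmul_eq_mul,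
      Nat.cast_sub (by omega), Nat.cast_one, ← hv] at this
    exact this
  have h8 := Finset.add_sum_erase Finset.univ (fun y => (P * P) y y) (Finset.mem_univ u)
  rw [← h8] at h1
  -- assemble
  set a := (P * P) u u
  set b := ∑ y ∈ Finset.univ.erase u, (P * P) y y
  have h9 : (r : ℝ) ^ 2 * ((r : ℝ) - 2) ^ 2 * ((v + 1) * a + b) ≤ (r : ℝ) ^ 2 * ((r : ℝ) - 2) ^ 2 * ((v - 1) * F) :=
    mul_le_mul_of_nonneg_left (by linarith) (by positivity)
  have h10 : (r : ℝ) ^ 2 * (v + 1) * w ^ 3 ≤ (r : ℝ) ^ 2 * (v + 1) * (((r : ℝ) - 2) ^ 2 * a) :=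
    mul_le_mul_of_nonneg_left h5 (by positivity)
  have h11 : ((r : ℝ) - 2) ^ 2 * ((v - 1) * w ^ 3) ≤ ((r : ℝ) - 2) ^ 2 * ((r : ℝ) ^ 2 * b) :=
    mul_le_mul_of_nonneg_left h7 (sq_nonneg _)
  have h12 : v * w * (w ^ 2 * ((2 - w) * (r : ℝ) ^ 2 + w * ((r : ℝ) - 2) ^ 2)) ≤
      v * w * (((r : ℝ) - 2) ^ 2 * ((r : ℝ) ^ 2 * F)) := by
    have e1 : v * w * (w ^ 2 * ((2 - w) * (r : ℝ) ^ 2 + w * ((r : ℝ) - 2) ^ 2)) =
        (r : ℝ) ^ 2 * (v + 1) * w ^ 3 + ((r : ℝ) - 2) ^ 2 * ((v - 1) * w ^ 3) := by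
      have e2 : v * (2 - w) = v + 1 := by rw [mul_sub, hvw]; ring
      calc v * w * (w ^ 2 * ((2 - w) * (r : ℝ) ^ 2 + w * ((r : ℝ) - 2) ^ 2))
          = w ^ 3 * ((v * (2 - w)) * (r : ℝ) ^ 2 + (v * w) * ((r : ℝ) - 2) ^ 2) := by ring
        _ = _ := by rw [e2, hvw]; ring
    rw [e1, hvw]
    linarith
  exact le_of_mul_le_mul_left h12 (by rw [hvw]; linarith)

end Pool.Agent.K2
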