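import Pool.Agent.Lib.MP_a7e07e_co.K2.Geo

set_option autoImplicit false

/-!
Lower bounds used for `r ≤ 7`.
-/

namespace Pool.Agent.K2

open Matrix Pool.Agent.BDesign

variable {T B : Type} [Fintype T] [DecidableEq T] [Fintype B] [DecidableEq B]
variable {N : T → B → ℕ} {r : ℕ} {P : Matrix T T ℝ}

/-- the Laplacian at `h` -/
theorem lap_at_h (hP : IsP N r P) (u h : T) (huh : u ≠ h) (hh : lam N h h = r) :
    ∑ l ∈ (Finset.univ.erase h).erase u, lam N h l * (P *ᵥ ev u h) l =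
      1 - r * (-(P *ᵥ ev u h) h) - lam N u h * (P *ᵥ ev u h) u := by
  set φ := P *ᵥ ev u h with hφ
  have e1 := lap_apply N hP.des φ h
  rw [L_P hP _ (ev_sum u h)] at e1
  have e2 : ev u h h = -1 := by
    simp [ev, huh.symm]
  rw [e2] at e1
  have e3 := Finset.add_sum_erase Finset.univ (fun l => lam N h l * (φ h - φ l)) (Finset.mem_univ h)
  have e4 : ∑ l ∈ Finset.univ.erase h, lam N h l * (φ h - φ l) = -1 := by
    rw [e1, ← e3]
    ring
  have e5 : ∑ l ∈ Finset.univ.erase h, lam N h l * (φ h - φ l) =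
      (∑ l ∈ Finset.univ.erase h, lam N h l) * φ h - ∑ l ∈ Finset.univ.erase h, lam N h l * φ l := by
    rw [Finset.sum_mul, ← Finset.sum_sub_distrib]
    exact Finset.sum_congr rfl fun l _ => by ring
  rw [e5, lam_erase hP.des h, hh] at e4
  have e6 : lam N h u * φ u + ∑ l ∈ (Finset.univ.erase h).erase u, lam N h l * φ l =
      ∑ l ∈ Finset.univ.erase h, lam N h l * φ l :=
    Finset.add_sum_erase (Finset.univ.erase h) (fun l => lam N h l * φ l)
      (Finset.mem_erase.2 ⟨huh, Finset.mem_univ u⟩)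
  rw [lam_comm N h u] at e6
  linarith

/-- the remaining weights at `h` -/
theorem rest_sum (hN : IsDesign N r 2) (u h : T) (huh : u ≠ h) (hh : lam N h h = r) :
    ∑ l ∈ (Finset.univ.erase h).erase u, lam N h l = r - lam N u h := by
  have e6 : lam N h u + ∑ l ∈ (Finset.univ.erase h).erase u, lam N h l =
      ∑ l ∈ Finset.univ.erase h, lam N h l :=
    Finset.add_sum_erase (Finset.univ.erase h) (fun l => lam N h l)
      (Finset.mem_erase.2 ⟨huh, Finset.mem_univ u⟩)
  rw [lam_erase hN h, hh, lam_comm N h u] at e6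
  linarith

/-- Cauchy - Schwarz at `h` -/
theorem geo_Y (hP : IsP N r P) (u h : T) (huh : u ≠ h) (hh : lam N h h = r) :
    (1 - r * (-(P *ᵥ ev u h) h) - lam N u h * (P *ᵥ ev u h) u) ^ 2 ≤
      (∑ l ∈ (Finset.univ.erase h).erase u, lam N h l ^ 2) *
        (qf (P * P) (ev u h) (ev u h) - ((-(P *ᵥ ev u h) h) ^ 2 + ((P *ᵥ ev u h) u) ^ 2)) := by
  rw [← lap_at_h hP u h huh hh, F_eq hP]
  have e1 := two_coord (P *ᵥ ev u h) u h huh
  have e2 : ∑ t, (P *ᵥ ev u h) t ^ 2 - ((-(P *ᵥ ev u h) h) ^ 2 + ((P *ᵥ ev u h) u) ^ 2) =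
      ∑ t ∈ (Finset.univ.erase h).erase u, (P *ᵥ ev u h) t ^ 2 := by
    rw [neg_sq]; linarith
  rw [e2]
  exact Finset.sum_mul_sq_le_sq_mul_sq _ _ _

theorem rest_sq (hN : IsDesign N r 2) (u h : T) (huh : u ≠ h) (hh : lam N h h = r) :
    ∑ l ∈ (Finset.univ.erase h).erase u, lam N h l ^ 2 ≤ (r - lam N u h) ^ 2 := by
  rw [← rest_sum hN u h huh hh, sq (∑ l ∈ (Finset.univ.erase h).erase u, lam N h l), Finset.mul_sum]
  refine Finset.sum_le_sum fun l hl => ?_
  rw [sq]
  refine mul_le_mul_of_nonneg_right ?_ (lam_nonneg N h l)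
  exact Finset.single_le_sum (f := fun l => lam N h l) (fun s _ => lam_nonneg N h s) hl

/-- the resistance between `u` and `h` -/
theorem geo_A (hP : IsP N r P) (u h : T) (huh : u ≠ h) (hh : lam N h h = r)
    (hlu : (r : ℝ) + 2 ≤ lam N u u) (hm : lam N u h ≤ r - 2) :
    2 * ((r : ℝ) - 1 - lam N u h) ≤
      (-(P *ᵥ ev u h) h + (P *ᵥ ev u h) u) * (r * (r - 2) - lam N u h ^ 2) := by
  set m := lam N u h with hmdef
  set A := -(P *ᵥ ev u h) h + (P *ᵥ ev u h) u with hA
  set α : ℝ := r - m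
  set β : ℝ := m - (r - 2)
  set y : T → ℝ := α • Pi.single u 1 + β • Pi.single h 1 with hy
  have h1 := psd_cs (Lp N r) (lap_symm N) (lap_psd N hP.des) y (P *ᵥ ev u h)
  have e1 : qf (Lp N r) y (P *ᵥ ev u h) = α - β := by
    unfold qf
    rw [L_P hP _ (ev_sum u h), hy, dotProduct_comm, ev_dot]
    simp [huh, huh.symm]
  have e2 : qf (Lp N r) (P *ᵥ ev u h) (P *ᵥ ev u h) = A := by
    unfold qf
    rw [L_P hP _ (ev_sum u h), dotProduct_comm, ev_dot, hA]
    ring
  have e3 : qf (Lp N r) y y = α ^ 2 * (2 * r - lam N u u) + β ^ 2 * (2 * r - lam N h h) - 2 * α * β * m := by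
    have g1 : ∀ a b : T, qf (Lp N r) (Pi.single a 1) (Pi.single b 1) = Lp N r a b := by
      intro a b
      unfold qf
      simp
    have g2 : ∀ (c : ℝ) (x z : T → ℝ), qf (Lp N r) (c • x) z = c * qf (Lp N r) x z := by
      intro c x z
      unfold qf
      rw [smul_dotProduct, smul_eq_mul]
    have g3 : ∀ (c : ℝ) (x z : T → ℝ), qf (Lp N r) x (c • z) = c * qf (Lp N r) x z := by
      intro c x z
      unfold qf
      rw [Matrix.mulVec_smul, dotProduct_smul, smul_eq_mul]
    rw [hy, qf_add_left, qf_add_right, qf_add_right, g2, g2, g2, g2, g3, g3, g3, g3, g1, g1, g1, g1]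
    have k1 : Lp N r u u = 2 * r - lam N u u := by simp [Lp]
    have k2 : Lp N r h h = 2 * r - lam N h h := by simp [Lp]
    have k3 : Lp N r u h = - m := by simp [Lp, huh, hmdef]
    have k4 : Lp N r h u = - m := by rw [lap_symm N, k3]
    rw [k1, k2, k3, k4]
    ring
  rw [e1, e2, e3, hh] at h1
  have hA0 : 0 ≤ A := by
    have := hP.psd (ev u h)
    rw [qf_ev_right hP] at this
    rw [hA]; linarith
  have h2 : α ^ 2 * (2 * r - lam N u u) + β ^ 2 * (2 * r - r) - 2 * α * β * m ≤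
      (r * (r - 2) - m ^ 2) * (2 * (r - 1 - m)) := by
    have g1 : α ^ 2 * (2 * r - lam N u u) ≤ α ^ 2 * (r - 2) :=
      mul_le_mul_of_nonneg_left (by linarith) (sq_nonneg α)
    have g2 : α ^ 2 * (r - 2) + β ^ 2 * (2 * r - r) - 2 * α * β * m =
        (r * (r - 2) - m ^ 2) * (2 * (r - 1 - m)) := by
      simp only [α, β]
      ring
    linarith
  have h3 : (α - β) ^ 2 ≤ ((r * (r - 2) - m ^ 2) * (2 * (r - 1 - m))) * A :=
    h1.trans (mul_le_mul_of_nonneg_right h2 hA0)
  have e4 : α - β = 2 * (r - 1 - m) := by simp only [α, β]; ring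
  rw [e4] at h3
  have hpos : 0 < 2 * ((r : ℝ) - 1 - m) := by linarith
  have h4 : (2 * ((r : ℝ) - 1 - m)) * (2 * (r - 1 - m)) ≤
      (2 * ((r : ℝ) - 1 - m)) * (A * (r * (r - 2) - m ^ 2)) := by
    calc (2 * ((r : ℝ) - 1 - m)) * (2 * (r - 1 - m)) = (2 * (r - 1 - m)) ^ 2 := by ring
      _ ≤ _ := h3
      _ = _ := by ring
  exact le_of_mul_le_mul_left h4 hpos

/-- natural numbers with sum `3` and all `≤ 2` -/
theorem sum_sq_five {ι : Type} [DecidableEq ι] (E : Finset ι) (c : ι → ℕ) (hs : ∑ l ∈ E, c l = 3)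
    (h2 : ∀ l ∈ E, c l ≤ 2) : ∑ l ∈ E, c l ^ 2 ≤ 5 := by
  by_cases h : ∃ l ∈ E, c l = 2
  · obtain ⟨l, hl, hc⟩ := h
    have e1 : c l + ∑ t ∈ E.erase l, c t = 3 := by
      rw [← hs]; exact Finset.add_sum_erase E c hl
    have e2 : c l ^ 2 + ∑ t ∈ E.erase l, c t ^ 2 = ∑ t ∈ E, c t ^ 2 :=
      Finset.add_sum_erase E (fun t => c t ^ 2) hl
    have e3 : ∑ t ∈ E.erase l, c t = 1 := by omega
    have e4 : ∑ t ∈ E.erase l, c t ^ 2 ≤ 1 := by
      calc ∑ t ∈ E.erase l, c t ^ 2 ≤ ∑ t ∈ E.erase l, c t * 1 := by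
            refine Finset.sum_le_sum fun t ht => ?_
            have : c t ≤ ∑ t ∈ E.erase l, c t := Finset.single_le_sum (fun _ _ => Nat.zero_le _) ht
            rw [sq]
            exact Nat.mul_le_mul le_rfl (by omega)
        _ = 1 := by simp [e3]
    rw [← e2, hc]
    omega
  · push Not at h
    calc ∑ l ∈ E, c l ^ 2 ≤ ∑ l ∈ E, c l := by
          refine Finset.sum_le_sum fun t ht => ?_
          have h3 := h2 t ht
          have h4 := h t ht
          have : c t ≤ 1 := by omega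
          rw [sq]
          calc c t * c t ≤ c t * 1 := Nat.mul_le_mul le_rfl this
            _ = c t := by ring
      _ ≤ 5 := by omega

/-- concurrence as a natural number -/
theorem lam_cast (N : T → B → ℕ) (h l : T) : lam N h l = ((∑ j, N h j * N l j : ℕ) : ℝ) := by
  unfold lam; push_cast; rfl

/-- for `r = 3` and `u, h` not adjacent, `h` has at least two neighbours -/
theorem rest_three (hP : IsP N 3 P) (u h : T) (huh : u ≠ h) (hl1 : ∀ y, y ≠ u → lam N y y = 3)
    (hm : lam N u h = 0) :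
    ∑ l ∈ (Finset.univ.erase h).erase u, lam N h l ^ 2 ≤ 5 := by
  have hs := rest_sum hP.des u h huh (by rw [hl1 h huh.symm]; norm_num)
  rw [hm] at hs
  simp only [lam_cast] at hs ⊢
  have hs' : ∑ l ∈ (Finset.univ.erase h).erase u, (∑ j, N h j * N l j) = 3 := by
    have : ((∑ l ∈ (Finset.univ.erase h).erase u, (∑ j, N h j * N l j) : ℕ) : ℝ) = (3 : ℕ) := by
      push_cast
      push_cast at hs
      linarith
    exact_mod_cast this
  have h2 : ∀ l ∈ (Finset.univ.erase h).erase u, (∑ j, N h j * N l j) ≤ 2 := by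
    intro l hl
    obtain ⟨hlu, hl'⟩ := Finset.mem_erase.1 hl
    have hlh := (Finset.mem_erase.1 hl').1
    by_contra hcon
    push Not at hcon
    have h3 : (3 : ℝ) ≤ lam N h l := by
      rw [lam_cast]
      exact_mod_cast hcon
    set y : T → ℝ := Pi.single h 1 + Pi.single l 1 with hy
    have g1 : ∀ a b : T, qf (Lp N 3) (Pi.single a 1) (Pi.single b 1) = Lp N 3 a b := by
      intro a b
      unfold qf
      simp
    have e3 : qf (Lp N 3) y y ≤ 0 := by
      rw [hy, qf_add_left, qf_add_right, qf_add_right, g1, g1, g1, g1]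
      have k1 : Lp N 3 h h = 3 := by simp [Lp, hl1 h huh.symm]; norm_num
      have k2 : Lp N 3 l l = 3 := by simp [Lp, hl1 l hlu]; norm_num
      have k3 : Lp N 3 h l = - lam N h l := by simp [Lp, hlh.symm]
      have k4 : Lp N 3 l h = - lam N h l := by rw [lap_symm N, k3]
      rw [k1, k2, k3, k4]
      linarith
    have e4 := lap_zero hP y (le_antisymm e3 (lap_psd N hP.des y)) h u
    have e5 : y h = 1 := by simp [hy, hlh.symm]
    have e6 : y u = 0 := by simp [hy, huh, hlu.symm]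
    rw [e5, e6] at e4
    exact one_ne_zero e4
  have := sum_sq_five _ _ hs' h2
  exact_mod_cast this

end Pool.Agent.K2
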