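import Pool.Agent.Lib.MP_a7e07e_co.K2.Base

set_option autoImplicit false

/-!
The summed swap inequality at the variety `h` which maximises `|P (e_u - e_y)|²`.
-/

namespace Pool.Agent.K2

open Matrix Pool.Agent.BDesign

variable {T B : Type} [Fintype T] [DecidableEq T] [Fintype B] [DecidableEq B]
variable {N : T → B → ℕ} {r : ℕ} {P : Matrix T T ℝ}

theorem lam_self (hN : IsDesign N r 2) (h : T) (h1 : ∀ j, N h j ≤ 1) : lam N h h = (r : ℝ) := by
  have e : ∀ j, (N h j : ℝ) * (N h j : ℝ) = (N h j : ℝ) := by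
    intro j
    have := h1 j
    interval_cases hj : N h j <;> simp
  unfold lam
  rw [Finset.sum_congr rfl fun j _ => e j, ← Nat.cast_sum, hN.1 h]

theorem lam_erase (hN : IsDesign N r 2) (h : T) :
    ∑ l ∈ Finset.univ.erase h, lam N h l = 2 * (r : ℝ) - lam N h h := by
  have := Finset.add_sum_erase Finset.univ (fun l => lam N h l) (Finset.mem_univ h)
  rw [lam_sum hN h] at this
  linarith

theorem lam_loop (hN : IsDesign N r 2) (u : T) (j0 : B) (h0 : 2 ≤ N u j0) : (r : ℝ) + 2 ≤ lam N u u := by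
  have e1 : ∑ j, (N u j : ℝ) = (r : ℝ) := by rw [← Nat.cast_sum, hN.1 u]
  have e2 : ∀ j, (N u j : ℝ) + (if j = j0 then 2 else 0) ≤ (N u j : ℝ) * (N u j : ℝ) := by
    intro j
    by_cases hj : j = j0
    · subst hj
      have h2 : (2 : ℝ) ≤ (N u j : ℝ) := by exact_mod_cast h0
      simp only [if_true]
      nlinarith
    · simp only [hj, if_false, add_zero]
      have : (N u j) ≤ (N u j) * (N u j) := Nat.le_mul_self _
      exact_mod_cast this
  have e3 := Finset.sum_le_sum fun j (_ : j ∈ Finset.univ) => e2 j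
  rw [Finset.sum_add_distrib, e1, Finset.sum_ite_eq' Finset.univ j0] at e3
  simpa [lam] using e3

theorem lam_nat (N : T → B → ℕ) (h l : T) (hne : lam N h l ≠ 0) : 1 ≤ lam N h l := by
  have e : lam N h l = ((∑ j, N h j * N l j : ℕ) : ℝ) := by
    unfold lam; push_cast; rfl
  rw [e] at hne ⊢
  have : (∑ j, N h j * N l j) ≠ 0 := by exact_mod_cast hne
  exact_mod_cast Nat.one_le_iff_ne_zero.2 this

/-- effective resistance of a pair -/
theorem R_pair (hP : IsP N r P) (h l : T) (hhl : h ≠ l) :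
    lam N h l * qf P (ev h l) (ev h l) ^ 2 ≤ qf P (ev h l) (ev h l) := by
  have e1 := lap_pair N hP.des (P *ᵥ ev h l) h l hhl
  rw [← qf_ev_right hP] at e1
  have e2 : qf (Lp N r) (P *ᵥ ev h l) (P *ᵥ ev h l) = qf P (ev h l) (ev h l) := by
    unfold qf
    rw [L_P hP _ (ev_sum h l), dotProduct_comm]
  rw [e2] at e1
  exact e1

theorem R_le_one (hP : IsP N r P) (h l : T) (hhl : h ≠ l) (hne : lam N h l ≠ 0) :
    qf P (ev h l) (ev h l) ≤ 1 := by
  have e1 := R_pair hP h l hhl
  have e2 := lam_nat N h l hne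
  have e3 := hP.psd (ev h l)
  by_contra hcon
  push Not at hcon
  nlinarith

theorem beta_ge (hP : IsP N r P) (h l : T) (hhl : h ≠ l) :
    qf P (ev h l) (ev h l) ^ 2 ≤ 2 * qf (P * P) (ev h l) (ev h l) := by
  rw [qf_ev_right hP, qf_sq hP]
  set f := P *ᵥ ev h l
  have e1 : f h * f h + f l * f l ≤ f ⬝ᵥ f := by
    have : ∑ t ∈ ({h, l} : Finset T), f t * f t ≤ ∑ t, f t * f t :=
      Finset.sum_le_sum_of_subset_of_nonneg (Finset.subset_univ _) fun t _ _ => mul_self_nonneg _
    rw [Finset.sum_pair hhl] at this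
    exact this
  nlinarith [sq_nonneg (f h + f l)]

/-- the sum `κ` -/
noncomputable def kap (N : T → B → ℕ) (P : Matrix T T ℝ) (h : T) : ℝ :=
  ∑ l ∈ Finset.univ.erase h, lam N h l * qf P (ev h l) (ev h l)

/-- the sum `θ` -/
noncomputable def the (N : T → B → ℕ) (P : Matrix T T ℝ) (h : T) : ℝ :=
  ∑ l ∈ Finset.univ.erase h, lam N h l * qf (P * P) (ev h l) (ev h l)

theorem kap_le (hP : IsP N r P) (h : T) (h1 : ∀ j, N h j ≤ 1) : kap N P h ≤ r := by
  have e1 := lam_erase hP.des h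
  rw [lam_self hP.des h h1] at e1
  have e2 : kap N P h ≤ ∑ l ∈ Finset.univ.erase h, lam N h l := by
    refine Finset.sum_le_sum fun l hl => ?_
    have hne : h ≠ l := (Finset.mem_erase.1 hl).1.symm
    by_cases h0 : lam N h l = 0
    · rw [h0]; simp
    · have := R_le_one hP h l hne h0
      have h2 := lam_nonneg N h l
      nlinarith
  linarith

theorem kap_sq (hP : IsP N r P) (h : T) (h1 : ∀ j, N h j ≤ 1) :
    kap N P h ^ 2 ≤ 2 * r * the N P h := by
  have e1 := lam_erase hP.des h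
  rw [lam_self hP.des h h1] at e1
  have e2 : kap N P h ^ 2 ≤ (∑ l ∈ Finset.univ.erase h, lam N h l) *
      ∑ l ∈ Finset.univ.erase h, lam N h l * qf P (ev h l) (ev h l) ^ 2 :=
    Finset.sum_sq_le_sum_mul_sum_of_sq_eq_mul _ (fun l _ => lam_nonneg N h l)
      (fun l _ => mul_nonneg (lam_nonneg N h l) (sq_nonneg _)) (fun l _ => by ring)
  have e3 : ∑ l ∈ Finset.univ.erase h, lam N h l * qf P (ev h l) (ev h l) ^ 2 ≤ 2 * the N P h := by
    unfold the
    rw [Finset.mul_sum]
    refine Finset.sum_le_sum fun l hl => ?_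
    have hne : h ≠ l := (Finset.mem_erase.1 hl).1.symm
    have := mul_le_mul_of_nonneg_left (beta_ge hP h l hne) (lam_nonneg N h l)
    linarith
  rw [e1] at e2
  have hr : (0 : ℝ) ≤ r := Nat.cast_nonneg r
  nlinarith [mul_le_mul_of_nonneg_left e3 hr]

/-- `t_l` summed with weights -/
theorem sum_t (hP : IsP N r P) (x : T → ℝ) (hx : ∑ t, x t = 0) (h : T) :
    ∑ l ∈ Finset.univ.erase h, lam N h l * qf (P * P) x (ev h l) = (P *ᵥ x) h := by
  have e1 : ∑ l, lam N h l * qf (P * P) x (ev h l) = (P *ᵥ x) h := by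
    have e2 := lap_apply N hP.des (P *ᵥ (P *ᵥ x)) h
    rw [L_P hP _ (sum_P hP x)] at e2
    rw [e2]
    exact Finset.sum_congr rfl fun l _ => by rw [qf2_ev_right hP]
  rw [← e1, ← Finset.add_sum_erase Finset.univ (fun l => lam N h l * qf (P * P) x (ev h l)) (Finset.mem_univ h),
    ev_self]
  simp [qf]

/-- the main inequality (I) together with the bounds for `κ` -/
theorem main_ineq (hP : IsP N r P) (u h : T) (huh : u ≠ h) (j0 : B) (h0 : 2 ≤ N u j0)
    (h1 : ∀ j, N h j ≤ 1)
    (hmax : ∀ y, qf (P * P) (ev u y) (ev u y) ≤ qf (P * P) (ev u h) (ev u h)) :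
    qf (P * P) (ev u h) (ev u h) * (2 * r - kap N P h) ≤
        2 * (-(P *ᵥ ev u h) h) * (1 + (-(P *ᵥ ev u h) h + (P *ᵥ ev u h) u)) ∧
      kap N P h ≤ r ∧ kap N P h ≤ 1 + r * (-(P *ᵥ ev u h) h) ∧ 0 ≤ -(P *ᵥ ev u h) h ∧
      0 ≤ (P *ᵥ ev u h) u := by
  set x := ev u h with hx
  set φ := P *ᵥ x with hφ
  set F := qf (P * P) x x with hF
  have hr : (0 : ℝ) ≤ r := Nat.cast_nonneg r
  have hA : qf P x x = φ u - φ h := by
    rw [hx, qf_ev_right hP]
  have hAn : 0 ≤ φ u - φ h := by rw [← hA]; exact hP.psd x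
  -- `β_l + 2 t_l ≤ 0`
  have hβ : ∀ l, qf (P * P) (ev h l) (ev h l) + 2 * qf (P * P) x (ev h l) ≤ 0 := by
    intro l
    have := hmax l
    rw [← ev_add u h l, qf_add_sq (P * P) (sq_symm hP)] at this
    linarith
  have hst : ∑ l ∈ Finset.univ.erase h, lam N h l * qf (P * P) x (ev h l) = φ h :=
    sum_t hP x (ev_sum u h) h
  have hθ : the N P h ≤ 2 * (-φ h) := by
    have : ∑ l ∈ Finset.univ.erase h, lam N h l * (qf (P * P) (ev h l) (ev h l) +
        2 * qf (P * P) x (ev h l)) ≤ 0 :=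
      Finset.sum_nonpos fun l _ => mul_nonpos_of_nonneg_of_nonpos (lam_nonneg N h l) (hβ l)
    have e : ∑ l ∈ Finset.univ.erase h, lam N h l * (qf (P * P) (ev h l) (ev h l) +
        2 * qf (P * P) x (ev h l)) = the N P h + 2 * φ h := by
      rw [← hst, the, Finset.mul_sum, ← Finset.sum_add_distrib]
      exact Finset.sum_congr rfl fun l _ => by ring
    rw [e] at this
    linarith
  have hθ0 : 0 ≤ the N P h :=
    Finset.sum_nonneg fun l _ => mul_nonneg (lam_nonneg N h l) (sq_psd hP _)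
  have hp : 0 ≤ -φ h := by linarith
  have hk := kap_le hP h h1
  have hk2 : kap N P h ^ 2 ≤ 4 * (r * (-φ h)) := by
    have := kap_sq hP h h1
    nlinarith [mul_le_mul_of_nonneg_left hθ hr]
  have hk3 : kap N P h ≤ 1 + r * (-φ h) := by
    have h2 : 0 ≤ r * (-φ h) := mul_nonneg hr hp
    refine abs_le_of_sq_le_sq' (?_ : kap N P h ^ 2 ≤ (1 + r * (-φ h)) ^ 2) (by linarith) |>.2
    nlinarith [sq_nonneg (1 - r * (-φ h))]
  refine ⟨?_, hk, hk3, hp, ?_⟩
  · -- the sum of the swap inequalities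
    have e1 : ∑ l ∈ Finset.univ.erase h, lam N h l * (F * (2 - qf P (ev h l) (ev h l))
        + 2 * qf (P * P) x (ev h l) * (1 + qf P x (ev h l)) - (φ u - φ h) * qf (P * P) (ev h l) (ev h l)) ≤ 0 := by
      refine Finset.sum_nonpos fun l hl => ?_
      have hne : h ≠ l := (Finset.mem_erase.1 hl).1.symm
      by_cases hl0 : lam N h l = 0
      · rw [hl0]; simp
      · have := swap_ineq hP u h l huh hne j0 h0 hl0
        rw [← hx, hA] at this
        exact mul_nonpos_of_nonneg_of_nonpos (lam_nonneg N h l) this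
    have e2 : ∑ l ∈ Finset.univ.erase h, lam N h l * (F * (2 - qf P (ev h l) (ev h l))
        + 2 * qf (P * P) x (ev h l) * (1 + qf P x (ev h l)) - (φ u - φ h) * qf (P * P) (ev h l) (ev h l)) =
        2 * F * (∑ l ∈ Finset.univ.erase h, lam N h l) - F * kap N P h
        + 2 * (∑ l ∈ Finset.univ.erase h, lam N h l * qf (P * P) x (ev h l))
        + (∑ l ∈ Finset.univ.erase h, lam N h l * (2 * qf (P * P) x (ev h l) * qf P x (ev h l)))
        - (φ u - φ h) * the N P h := by
      rw [the, kap]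
      simp only [Finset.mul_sum]
      rw [← Finset.sum_sub_distrib, ← Finset.sum_add_distrib, ← Finset.sum_add_distrib,
        ← Finset.sum_sub_distrib]
      exact Finset.sum_congr rfl fun l _ => by ring
    have e3 : 0 ≤ ∑ l ∈ Finset.univ.erase h, lam N h l * (2 * qf (P * P) x (ev h l) * qf P x (ev h l)) := by
      refine Finset.sum_nonneg fun l _ => mul_nonneg (lam_nonneg N h l) ?_
      have g1 : qf (P * P) x (ev h l) ≤ 0 := by
        have := hβ l
        have g2 := sq_psd hP (ev h l)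
        linarith
      have g3 : qf P x (ev h l) ≤ 0 := by
        rw [qf_ev_right hP]
        exact sub_nonpos.2 (min_principle hP u h l)
      nlinarith [mul_nonneg (neg_nonneg.2 g1) (neg_nonneg.2 g3)]
    have e4 := lam_erase hP.des h
    rw [lam_self hP.des h h1] at e4
    rw [e2, hst, e4] at e1
    have e5 : (φ u - φ h) * the N P h ≤ (φ u - φ h) * (2 * (-φ h)) := mul_le_mul_of_nonneg_left hθ hAn
    nlinarith
  · have h3 := sum_P hP x
    rw [← hφ] at h3
    have h4 : ∑ t, φ t ≤ ∑ _t : T, φ u := Finset.sum_le_sum fun t _ => max_principle hP u h t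
    rw [h3, Finset.sum_const, nsmul_eq_mul] at h4
    have h5 : (0 : ℝ) < (Finset.univ : Finset T).card := by
      have : 0 < (Finset.univ : Finset T).card := Finset.card_pos.2 ⟨u, Finset.mem_univ u⟩
      exact_mod_cast this
    exact nonneg_of_mul_nonneg_right h4 h5

end Pool.Agent.K2
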