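import Pool.Agent.Lib.BDesign.OptIneq
import Pool.Agent.Lib.BDesign.SwapMu
import Pool.Agent.Lib.BDesign.HBasic

set_option autoImplicit false

/-!
Block size two: the Laplacian `L = 2 r I - N Nᵀ` of a design with `k = 2` and its pseudo-inverse `P = H / (2 r)`.
-/

namespace Pool.Agent.K2

open Matrix Pool.Agent.BDesign

variable {T B : Type} [Fintype T] [DecidableEq T] [Fintype B] [DecidableEq B]

/-- Laplacian -/
noncomputable def Lp (N : T → B → ℕ) (r : ℕ) : Matrix T T ℝ := fun t s =>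
  (if t = s then 2 * (r : ℝ) else 0) - lam N t s

/-- `P` is the pseudo-inverse of the Laplacian of the design `N` with `k = 2`, and `N` cannot be improved by a swap. -/
structure IsP (N : T → B → ℕ) (r : ℕ) (P : Matrix T T ℝ) : Prop where
  des : IsDesign N r 2
  symm : ∀ t s, P t s = P s t
  row : ∀ t, ∑ s, P t s = 0
  left : Lp N r * P = PiM T
  right : P * Lp N r = PiM T
  psd : ∀ x : T → ℝ, 0 ≤ qf P x x
  swap : ∀ (i h : T) (j l : B), i ≠ h → j ≠ l → 1 ≤ N i j → 1 ≤ N h l → ∀ z : T → ℝ,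
    z = BDesign.col N j - BDesign.col N l - ev i h →
    2 * (1 + qf P (ev i h) z) * qf (P * P) (ev i h) z ≤
      qf P z z * qf (P * P) (ev i h) (ev i h) + qf P (ev i h) (ev i h) * qf (P * P) z z

theorem ev_sum (i h : T) : ∑ t, ev i h t = 0 := by
  simp only [ev, Finset.sum_sub_distrib, Finset.sum_ite_eq', Finset.mem_univ, if_true, sub_self]

theorem isP_of_opt (N : T → B → ℕ) (r : ℕ) (H : Matrix T T ℝ) (hr : 0 < r) (hT : 0 < Fintype.card T)
    (ho : Opt N r 2 H) : IsP N r ((1 / (2 * (r : ℝ))) • H) := by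
  have hμ := good_mu N r 2 hr (by norm_num) hT ho.des
  have hH := ho.isH
  have hr' : (0 : ℝ) < r := by exact_mod_cast hr
  have hε : (0 : ℝ) < 1 / (2 * (r : ℝ)) := by positivity
  have hL : Lp N r = (2 * (r : ℝ)) • (PiM T - mu N r 2) := by
    ext t s
    simp only [Lp, PiM, mu, lam, Matrix.smul_apply, Matrix.sub_apply, smul_eq_mul]
    push_cast
    by_cases h : t = s
    · simp only [h, if_true]
      field_simp
      ring
    · simp only [h, if_false]
      field_simp
      ring
  have hLH : (PiM T - mu N r 2) * H = PiM T := by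
    rw [Matrix.sub_mul, pi_h hH, mu_h hμ hH]
    abel
  have hqf : ∀ x y : T → ℝ, qf ((1 / (2 * (r : ℝ))) • H) x y = 1 / (2 * (r : ℝ)) * qf H x y := by
    intro x y
    unfold qf
    rw [Matrix.smul_mulVec, dotProduct_smul, smul_eq_mul]
  have hqf2 : ∀ x y : T → ℝ, qf (((1 / (2 * (r : ℝ))) • H) * ((1 / (2 * (r : ℝ))) • H)) x y =
      (1 / (2 * (r : ℝ))) ^ 2 * qf (Am H) x y := by
    intro x y
    unfold qf Am
    rw [Matrix.smul_mul, Matrix.mul_smul, smul_smul, Matrix.smul_mulVec, dotProduct_smul, smul_eq_mul, sq]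
  refine ⟨ho.des, ?_, ?_, ?_, ?_, ?_, ?_⟩
  · intro t s
    simp only [Matrix.smul_apply, hH.symm t s]
  · intro t
    simp only [Matrix.smul_apply, smul_eq_mul]
    rw [← Finset.mul_sum, hH.row, mul_zero]
  · rw [hL, Matrix.smul_mul, Matrix.mul_smul, smul_smul, hLH, mul_one_div_cancel (by positivity), one_smul]
  · rw [hL, Matrix.smul_mul, Matrix.mul_smul, smul_smul, hH.inv, one_div_mul_cancel (by positivity), one_smul]
  · intro x
    rw [hqf]
    exact mul_nonneg hε.le (h_psd hT hμ hH x)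
  · intro i h j l hih hjl hij hhl z hz
    have hd := swp_design N r 2 ho.des i h j l hih hjl hij hhl
    have hm := swp_mu N r 2 i h j l hih hjl hij hhl
    have hμ' := good_mu _ r 2 hr (by norm_num) hT hd
    rw [hm, ← hz] at hμ'
    have hzs : ∑ t, z t = 0 := by
      rw [hz]
      simp only [Pi.sub_apply, Finset.sum_sub_distrib, ev_sum, sub_zero, BDesign.col]
      have e1 := ho.des.2 j
      have e2 := ho.des.2 l
      have e3 : ∑ t, (N t j : ℝ) = 2 := by rw [← Nat.cast_sum, e1]; norm_num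
      have e4 : ∑ t, (N t l : ℝ) = 2 := by rw [← Nat.cast_sum, e2]; norm_num
      rw [e3, e4, sub_self]
    have h1 := opt_ineq hT hμ hH (ev i h) z (ev_sum i h) hzs
      (1 / ((r : ℝ) * (2 : ℕ))) (by positivity) hμ'
      (fun H' hH' => ho.min _ H' hd (by rw [hm, ← hz]; exact hH'))
    have e0 : (1 / ((r : ℝ) * (2 : ℕ))) = 1 / (2 * (r : ℝ)) := by
      push_cast
      rw [mul_comm]
    rw [e0] at h1
    simp only [hqf, hqf2]
    have h2 := mul_le_mul_of_nonneg_left h1 (sq_nonneg (1 / (2 * (r : ℝ))))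
    linarith

variable {N : T → B → ℕ} {r : ℕ} {P : Matrix T T ℝ}

theorem lam_nonneg (N : T → B → ℕ) (t s : T) : 0 ≤ lam N t s :=
  Finset.sum_nonneg fun _ _ => mul_nonneg (Nat.cast_nonneg _) (Nat.cast_nonneg _)

theorem lam_comm (N : T → B → ℕ) (t s : T) : lam N t s = lam N s t :=
  Finset.sum_congr rfl fun _ _ => mul_comm _ _

theorem lam_sum (hN : IsDesign N r 2) (t : T) : ∑ s, lam N t s = 2 * (r : ℝ) := by
  unfold lam
  rw [Finset.sum_comm]
  have e : ∀ j : B, ∑ s, (N t j : ℝ) * (N s j : ℝ) = 2 * (N t j : ℝ) := by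
    intro j
    rw [← Finset.mul_sum, ← Nat.cast_sum, hN.2 j]
    push_cast
    ring
  rw [Finset.sum_congr rfl fun j _ => e j, ← Finset.mul_sum, ← Nat.cast_sum, hN.1 t]

theorem lap_apply (N : T → B → ℕ) (hN : IsDesign N r 2) (f : T → ℝ) (t : T) :
    (Lp N r *ᵥ f) t = ∑ s, lam N t s * (f t - f s) := by
  simp only [Matrix.mulVec, dotProduct, Lp, sub_mul, Finset.sum_sub_distrib, ite_mul, zero_mul, mul_sub]
  rw [Finset.sum_ite_eq Finset.univ t, ← Finset.sum_mul, lam_sum hN]
  simp

theorem lap_symm (N : T → B → ℕ) (t s : T) : Lp N r t s = Lp N r s t := by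
  simp only [Lp, lam_comm N t s, eq_comm]

theorem lap_form (N : T → B → ℕ) (hN : IsDesign N r 2) (f g : T → ℝ) :
    2 * qf (Lp N r) f g = ∑ t, ∑ s, lam N t s * ((f t - f s) * (g t - g s)) := by
  have e1 : qf (Lp N r) f g = ∑ t, ∑ s, lam N t s * (f t * (g t - g s)) := by
    unfold qf
    simp only [dotProduct, lap_apply N hN, Finset.mul_sum]
    exact Finset.sum_congr rfl fun t _ => Finset.sum_congr rfl fun s _ => by ring
  have e2 : qf (Lp N r) f g = ∑ t, ∑ s, lam N t s * (f s * (g s - g t)) := by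
    rw [e1, Finset.sum_comm]
    exact Finset.sum_congr rfl fun t _ => Finset.sum_congr rfl fun s _ => by rw [lam_comm N s t]
  have e3 : 2 * qf (Lp N r) f g = (∑ t, ∑ s, lam N t s * (f t * (g t - g s)))
      + ∑ t, ∑ s, lam N t s * (f s * (g s - g t)) := by
    rw [← e1, ← e2]; ring
  rw [e3, ← Finset.sum_add_distrib]
  refine Finset.sum_congr rfl fun t _ => ?_
  rw [← Finset.sum_add_distrib]
  exact Finset.sum_congr rfl fun s _ => by ring

theorem lap_psd (N : T → B → ℕ) (hN : IsDesign N r 2) (f : T → ℝ) : 0 ≤ qf (Lp N r) f f := by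
  have h := lap_form N hN f f
  have h2 : 0 ≤ ∑ t, ∑ s, lam N t s * ((f t - f s) * (f t - f s)) :=
    Finset.sum_nonneg fun t _ => Finset.sum_nonneg fun s _ =>
      mul_nonneg (lam_nonneg N t s) (mul_self_nonneg _)
  linarith

/-- a single pair in the energy -/
theorem lap_pair (N : T → B → ℕ) (hN : IsDesign N r 2) (f : T → ℝ) (h l : T) (hhl : h ≠ l) :
    lam N h l * (f h - f l) ^ 2 ≤ qf (Lp N r) f f := by
  have e := lap_form N hN f f
  have h1 : ∀ t s, 0 ≤ lam N t s * ((f t - f s) * (f t - f s)) := fun t s =>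
    mul_nonneg (lam_nonneg N t s) (mul_self_nonneg _)
  have h2 : ∑ t ∈ ({h, l} : Finset T), ∑ s, lam N t s * ((f t - f s) * (f t - f s)) ≤
      ∑ t, ∑ s, lam N t s * ((f t - f s) * (f t - f s)) :=
    Finset.sum_le_sum_of_subset_of_nonneg (Finset.subset_univ _) fun t _ _ =>
      Finset.sum_nonneg fun s _ => h1 t s
  rw [Finset.sum_pair hhl] at h2
  have h3 : lam N h l * ((f h - f l) * (f h - f l)) ≤ ∑ s, lam N h s * ((f h - f s) * (f h - f s)) :=
    Finset.single_le_sum (f := fun s => lam N h s * ((f h - f s) * (f h - f s))) (fun s _ => h1 h s)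
      (Finset.mem_univ l)
  have h4 : lam N l h * ((f l - f h) * (f l - f h)) ≤ ∑ s, lam N l s * ((f l - f s) * (f l - f s)) :=
    Finset.single_le_sum (f := fun s => lam N l s * ((f l - f s) * (f l - f s))) (fun s _ => h1 l s)
      (Finset.mem_univ h)
  rw [lam_comm N l h] at h4
  nlinarith

/-- a function with energy zero is constant -/
theorem lap_zero (hP : IsP N r P) (d : T → ℝ) (hd : qf (Lp N r) d d = 0) (t s : T) : d t = d s := by
  have h1 : ∀ y, qf (Lp N r) y d = 0 := by
    intro y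
    have := psd_cs (Lp N r) (lap_symm N) (lap_psd N hP.des) y d
    rw [hd, mul_zero] at this
    exact pow_eq_zero_iff (two_ne_zero) |>.1 (le_antisymm this (sq_nonneg _))
  have h2 : Lp N r *ᵥ d = 0 := by
    ext t
    have := h1 (Pi.single t 1)
    unfold qf at this
    rw [single_dotProduct, one_mul] at this
    exact this
  have h3 : PiM T *ᵥ d = 0 := by
    rw [← hP.right, ← Matrix.mulVec_mulVec, h2, Matrix.mulVec_zero]
  have h4 : ∀ t, d t = (∑ s, d s) / (Fintype.card T : ℝ) := by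
    intro t
    have := congrFun h3 t
    simp only [Matrix.mulVec, dotProduct, PiM, sub_mul, Finset.sum_sub_distrib, ite_mul, one_mul,
      zero_mul, Pi.zero_apply] at this
    rw [Finset.sum_ite_eq Finset.univ t, ← Finset.mul_sum] at this
    simp only [Finset.mem_univ, if_true] at this
    rw [div_eq_mul_one_div, mul_comm]
    linarith
  rw [h4 t, h4 s]

end Pool.Agent.K2
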