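import Pool.Agent.Lib.MP_a7e07e_co.K2.Core2
import Pool.Agent.Lib.BDesign.AsmB
import Pool.Agent.Lib.BDesign.Dual

set_option autoImplicit false

/-!
Assembly: an optimal design with `k = 2` or `r = 2` is binary, so every non-binary connected design with `k = 2` or
`r = 2` is worse than a binary one.
-/

namespace Pool.Agent.K2

open Matrix Pool.Agent.BDesign

variable {T B : Type} [Fintype T] [DecidableEq T] [Fintype B] [DecidableEq B]

theorem core_two (N : T → B → ℕ) (r k : ℕ) (H : Matrix T T ℝ) (hr : 0 < r) (hk : 0 < k)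
    (h2 : k = 2 ∨ r = 2) (hkv : k ≤ Fintype.card T) (ho : Opt N r k H) (i : T) (j : B) : N i j ≤ 1 := by
  rcases h2 with rfl | rfl
  · exact core2 N r H hr hkv ho i j
  · have hT : 0 < Fintype.card T := Fintype.card_pos_iff.mpr ⟨i⟩
    have hB : 0 < Fintype.card B := Fintype.card_pos_iff.mpr ⟨j⟩
    obtain ⟨H', hH'⟩ := opt_dual N 2 k H hr hk hT hB ho
    have hcount := card_mul N 2 k ho.des
    have hrb : 2 ≤ Fintype.card B := by
      by_contra hc
      have h1 : Fintype.card B = 1 := by omega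
      rw [h1] at hcount
      omega
    exact core2 (tr' N) k H' hk hrb hH' j i

theorem main_two (v b r k : ℕ) (N : Fin v → Fin b → ℕ) (hkv : k ≤ v) (hrk : k = 2 ∨ r = 2)
    (hcol : ∀ j, ∑ i, N i j = k) (hrow : ∀ i, ∑ j, N i j = r) (hnb : ∃ i j, 2 ≤ N i j)
    (hd : (cmat N r k).det ≠ 0) :
    ∃ M : Fin v → Fin b → ℕ, (∀ j, ∑ i, M i j = k) ∧ (∀ i, ∑ j, M i j = r) ∧ (∀ i j, M i j ≤ 1) ∧
      (cmat M r k).det ≠ 0 ∧ (cmat M r k)⁻¹.trace < (cmat N r k)⁻¹.trace := by
  have hN : IsDesign N r k := ⟨hrow, hcol⟩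
  obtain ⟨i0, j0, h2⟩ := hnb
  have hv : 0 < v := lt_of_le_of_lt (Nat.zero_le _) i0.isLt
  have hr : 0 < r := by
    have h := Finset.single_le_sum (f := fun j => N i0 j) (fun j _ => Nat.zero_le _)
      (Finset.mem_univ j0)
    rw [hrow i0] at h
    omega
  have hk : 0 < k := by
    have h := Finset.single_le_sum (f := fun i => N i j0) (fun j _ => Nat.zero_le _)
      (Finset.mem_univ i0)
    rw [hcol j0] at h
    omega
  have hkv' : k ≤ Fintype.card (Fin v) := by simpa using hkv
  obtain ⟨H, hH, htr⟩ := isH_of_det N r k hv hr hk hN hd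
  obtain ⟨N', H', hopt, hle⟩ := exists_opt N r k hv hr hk hN H hH
  have hlt : H'.trace < H.trace := by
    by_contra hcon
    have heq : H'.trace = H.trace := le_antisymm hle (not_lt.mp hcon)
    have hoN : Opt N r k H :=
      ⟨hN, hH, fun N'' H'' h1 h2 => by rw [← heq]; exact hopt.min N'' H'' h1 h2⟩
    have := core_two N r k H hr hk hrk hkv' hoN i0 j0
    omega
  refine ⟨N', hopt.des.2, hopt.des.1, fun i j => core_two N' r k H' hr hk hrk hkv' hopt i j, ?_, ?_⟩
  · exact det_of_isH N' r k hv hr hk hopt.des H' hopt.isH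
  · have hd' := det_of_isH N' r k hv hr hk hopt.des H' hopt.isH
    obtain ⟨H'', hH'', htr'⟩ := isH_of_det N' r k hv hr hk hopt.des hd'
    have hu : H'' = H' := by
      refine h_unique ?_ hH'' hopt.isH
      exact good_mu N' r k hr hk (by simpa using hv) hopt.des
    rw [htr', htr, hu]
    have hr' : (0 : ℝ) < r := by exact_mod_cast hr
    have := div_lt_div_of_pos_right hlt hr'
    linarith

end Pool.Agent.K2
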